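import Pool.Agent.CPR.Defs

/-!
Elementary inequalities between `n`, `p` and the threshold function.
-/

namespace Pool.Agent.CPR

lemma two_choose (j : ℕ) : 2 * j.choose 2 = j * (j - 1) := by
  rw [Nat.choose_two_right, Nat.two_mul_div_two_of_even (Nat.even_mul_pred_self j)]

lemma le_of_sq {a b : ℝ} (hb : 0 ≤ b) (h : a ^ 2 ≤ b ^ 2) : a ≤ b := by
  by_contra hcon
  push Not at hcon
  nlinarith

lemma a1 {r j n : ℕ} {p M : ℝ} (hp0 : 0 < p) (hp1 : p ≤ 1) (hM : 1 ≤ M) (hMp : M ^ 2 * p ≤ 1)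
    (hn : 1 ≤ (n : ℝ) ^ 2 * p ^ (r + 1)) (hj2 : 2 ≤ j) (hjr : j ≤ r) :
    M ≤ (n : ℝ) ^ (j - 1) * p ^ (j.choose 2) := by
  apply le_of_sq (by positivity)
  have e1 : ((n : ℝ) ^ (j - 1) * p ^ (j.choose 2)) ^ 2 = ((n : ℝ) ^ 2 * p ^ j) ^ (j - 1) := by
    rw [mul_pow, mul_pow, ← pow_mul, ← pow_mul, ← pow_mul, ← pow_mul, mul_comm (j - 1) 2,
      mul_comm (j.choose 2) 2, two_choose]
  rw [e1]
  have h1 : M ^ 2 ≤ (n : ℝ) ^ 2 * p ^ j := by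
    have h2 : (n : ℝ) ^ 2 * p ^ r ≤ (n : ℝ) ^ 2 * p ^ j :=
      mul_le_mul_of_nonneg_left (pow_le_pow_of_le_one hp0.le hp1 hjr) (by positivity)
    have h3 : M ^ 2 * p ≤ ((n : ℝ) ^ 2 * p ^ r) * p := by
      have : ((n : ℝ) ^ 2 * p ^ r) * p = (n : ℝ) ^ 2 * p ^ (r + 1) := by ring
      rw [this]
      exact hMp.trans hn
    exact (le_of_mul_le_mul_right h3 hp0).trans h2
  have h4 : 1 ≤ (n : ℝ) ^ 2 * p ^ j := le_trans (one_le_pow₀ hM) h1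
  calc M ^ 2 ≤ (n : ℝ) ^ 2 * p ^ j := h1
    _ = ((n : ℝ) ^ 2 * p ^ j) ^ 1 := (pow_one _).symm
    _ ≤ ((n : ℝ) ^ 2 * p ^ j) ^ (j - 1) := pow_le_pow_right₀ h4 (by omega)

lemma a2 {r j n : ℕ} {p : ℝ} (hp0 : 0 < p) (hp1 : p ≤ 1)
    (hn : (n : ℝ) ^ 2 * p ^ (r + 2) ≤ 1) (hj2 : 2 ≤ j) (hjr : j ≤ r + 1) :
    (n : ℝ) ^ (r + 1 - j) * p ^ ((r + 1).choose 2 - j.choose 2) ≤ 1 := by
  apply le_of_sq (by norm_num)
  have hch : j.choose 2 ≤ (r + 1).choose 2 := Nat.choose_le_choose 2 hjr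
  have e0 : 2 * ((r + 1).choose 2 - j.choose 2) = (r + j) * (r + 1 - j) := by
    have h1 := two_choose (r + 1)
    have h2 := two_choose j
    obtain ⟨d, hd⟩ : ∃ d, r + 1 = j + d := ⟨r + 1 - j, by omega⟩
    obtain ⟨i, rfl⟩ : ∃ i, j = i + 1 := ⟨j - 1, by omega⟩
    have hr : r = i + d := by omega
    subst hr
    have e1 : i + d + 1 - (i + 1) = d := by omega
    rw [e1]
    simp only [Nat.add_sub_cancel] at h1 h2
    have e2 : (i + d + 1) * (i + d) = (i + 1) * i + (i + d + (i + 1)) * d := by ring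
    omega
  have e1 : ((n : ℝ) ^ (r + 1 - j) * p ^ ((r + 1).choose 2 - j.choose 2)) ^ 2
      = ((n : ℝ) ^ 2 * p ^ (r + j)) ^ (r + 1 - j) := by
    rw [mul_pow, mul_pow, ← pow_mul, ← pow_mul, ← pow_mul, ← pow_mul,
      mul_comm (r + 1 - j) 2, mul_comm (_ - _) 2, e0]
  rw [e1, one_pow]
  apply pow_le_one₀ (by positivity)
  refine le_trans ?_ hn
  exact mul_le_mul_of_nonneg_left (pow_le_pow_of_le_one hp0.le hp1 (by omega)) (by positivity)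

lemma a3 {r n : ℕ} {p M : ℝ} (hp0 : 0 < p) (hM : 1 ≤ M) (hr : 1 ≤ r)
    (hn : M ^ 2 ≤ (n : ℝ) ^ 2 * p ^ (r + 1)) :
    M ≤ (n : ℝ) ^ r * p ^ ((r + 1).choose 2) := by
  apply le_of_sq (by positivity)
  have e1 : ((n : ℝ) ^ r * p ^ ((r + 1).choose 2)) ^ 2 = ((n : ℝ) ^ 2 * p ^ (r + 1)) ^ r := by
    rw [mul_pow, mul_pow, ← pow_mul, ← pow_mul, ← pow_mul, ← pow_mul, mul_comm r 2,
      mul_comm ((r + 1).choose 2) 2, two_choose, Nat.add_sub_cancel]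
  rw [e1]
  have h4 : 1 ≤ (n : ℝ) ^ 2 * p ^ (r + 1) := le_trans (one_le_pow₀ hM) hn
  calc M ^ 2 ≤ (n : ℝ) ^ 2 * p ^ (r + 1) := hn
    _ = ((n : ℝ) ^ 2 * p ^ (r + 1)) ^ 1 := (pow_one _).symm
    _ ≤ ((n : ℝ) ^ 2 * p ^ (r + 1)) ^ r := pow_le_pow_right₀ h4 hr

lemma a4 {r n : ℕ} {p M : ℝ} (hp0 : 0 < p) (hr : 1 ≤ r) (hn0 : 0 < n)
    (hMp : M ^ 2 * p ≤ 1) (hn : (n : ℝ) ^ 2 * p ^ (r + 2) ≤ 1) :
    M ^ 2 ≤ t0 r n p := by
  have hn0' : (0 : ℝ) < n := by exact_mod_cast hn0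
  have hkey : p ^ ((r + 1).choose 2) * (n : ℝ) ^ (r - 1) ≤ p := by
    apply le_of_sq hp0.le
    obtain ⟨s, rfl⟩ : ∃ s, r = s + 1 := ⟨r - 1, by omega⟩
    have e1 : (p ^ ((s + 1 + 1).choose 2) * (n : ℝ) ^ (s + 1 - 1)) ^ 2
        = ((n : ℝ) ^ 2 * p ^ (s + 1 + 2)) ^ s * p ^ 2 := by
      rw [mul_pow, mul_pow, ← pow_mul, ← pow_mul, ← pow_mul, ← pow_mul,
        mul_comm ((s + 1 + 1).choose 2) 2, two_choose, Nat.add_sub_cancel, Nat.add_sub_cancel]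
      have : (s + 1 + 1) * (s + 1) = (s + 1 + 2) * s + 2 := by ring
      rw [this, pow_add]
      ring
    rw [e1]
    have h1 : ((n : ℝ) ^ 2 * p ^ (s + 1 + 2)) ^ s ≤ 1 := pow_le_one₀ (by positivity) hn
    have h2 : 0 ≤ p ^ 2 := by positivity
    nlinarith
  unfold t0
  rw [le_div_iff₀ (by positivity)]
  have h3 : 0 ≤ M ^ 2 := by positivity
  nlinarith

lemma t0_pos {r n : ℕ} {p : ℝ} (hp0 : 0 < p) (hn0 : 0 < n) : 0 < t0 r n p := by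
  have hn0' : (0 : ℝ) < n := by exact_mod_cast hn0
  unfold t0
  positivity

lemma t0_mul {r n : ℕ} {p : ℝ} (hp0 : 0 < p) (hn0 : 0 < n) (hr : 1 ≤ r) :
    t0 r n p * ((n : ℝ) ^ r * p ^ ((r + 1).choose 2)) = n := by
  have hn0' : (0 : ℝ) < n := by exact_mod_cast hn0
  unfold t0
  obtain ⟨s, rfl⟩ : ∃ s, r = s + 1 := ⟨r - 1, by omega⟩
  rw [Nat.add_sub_cancel]
  field_simp
  ring

end Pool.Agent.CPR
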