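import Mathlib

/-!
Finite product Bernoulli measures on `Finset α`, the Harris inequality, and a form of the
Janson inequality.
-/

open Finset

set_option linter.unusedSectionVars false

namespace Pool.Agent.CPR

section Bernoulli

variable {α : Type*} [Fintype α] [DecidableEq α]

/-- The weight of `A` when each `a` belongs to the random set independently with
probability `π a`. -/
noncomputable def wt (π : α → ℝ) (A : Finset α) : ℝ := ∏ a, if a ∈ A then π a else 1 - π a

/-- Expectation of `f`. -/
noncomputable def ex (π : α → ℝ) (f : Finset α → ℝ) : ℝ := ∑ A, wt π A * f A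

lemma wt_nonneg {π : α → ℝ} (h0 : ∀ a, 0 ≤ π a) (h1 : ∀ a, π a ≤ 1) (A : Finset α) :
    0 ≤ wt π A := by
  unfold wt
  refine prod_nonneg fun a _ => ?_
  split_ifs
  · exact h0 a
  · linarith [h1 a]

lemma wt_eq (π : α → ℝ) (A : Finset α) :
    wt π A = (∏ a ∈ A, π a) * ∏ a ∈ Aᶜ, (1 - π a) := by
  unfold wt
  rw [← Finset.prod_mul_prod_compl A]
  congr 1
  · exact prod_congr rfl fun a ha => by simp [ha]
  · refine prod_congr rfl fun a ha => ?_
    rw [mem_compl] at ha
    simp [ha]

lemma sum_wt (π : α → ℝ) : ∑ A, wt π A = 1 := by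
  have h := Finset.prod_add (fun a => π a) (fun a => 1 - π a) (Finset.univ : Finset α)
  have h2 : ∏ a : α, (π a + (1 - π a)) = 1 := by
    apply prod_eq_one
    intro a _
    ring
  rw [h2] at h
  rw [h, powerset_univ]
  refine sum_congr rfl fun A _ => ?_
  rw [wt_eq, compl_eq_univ_sdiff]

lemma ex_const (π : α → ℝ) (c : ℝ) : ex π (fun _ => c) = c := by
  unfold ex
  rw [← sum_mul, sum_wt, one_mul]

lemma ex_add (π : α → ℝ) (f g : Finset α → ℝ) :
    ex π (fun A => f A + g A) = ex π f + ex π g := by
  unfold ex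
  rw [← sum_add_distrib]
  exact sum_congr rfl fun A _ => by ring

lemma ex_sub (π : α → ℝ) (f g : Finset α → ℝ) :
    ex π (fun A => f A - g A) = ex π f - ex π g := by
  unfold ex
  rw [← sum_sub_distrib]
  exact sum_congr rfl fun A _ => by ring

lemma ex_mul_left (π : α → ℝ) (c : ℝ) (f : Finset α → ℝ) :
    ex π (fun A => c * f A) = c * ex π f := by
  unfold ex
  rw [mul_sum]
  exact sum_congr rfl fun A _ => by ring

lemma ex_sum {ι : Type*} (π : α → ℝ) (I : Finset ι) (f : ι → Finset α → ℝ) :
    ex π (fun A => ∑ i ∈ I, f i A) = ∑ i ∈ I, ex π (f i) := by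
  unfold ex
  rw [sum_comm]
  exact sum_congr rfl fun A _ => by rw [mul_sum]

lemma ex_mono {π : α → ℝ} (h0 : ∀ a, 0 ≤ π a) (h1 : ∀ a, π a ≤ 1) {f g : Finset α → ℝ}
    (h : ∀ A, f A ≤ g A) : ex π f ≤ ex π g :=
  sum_le_sum fun A _ => mul_le_mul_of_nonneg_left (h A) (wt_nonneg h0 h1 A)

lemma ex_nonneg {π : α → ℝ} (h0 : ∀ a, 0 ≤ π a) (h1 : ∀ a, π a ≤ 1) {f : Finset α → ℝ}
    (h : ∀ A, 0 ≤ f A) : 0 ≤ ex π f :=
  sum_nonneg fun A _ => mul_nonneg (wt_nonneg h0 h1 A) (h A)

/-- Indicator of `T ⊆ A`. -/
noncomputable def ind (T A : Finset α) : ℝ := if T ⊆ A then 1 else 0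

lemma ind_nonneg (T A : Finset α) : 0 ≤ ind T A := by
  unfold ind; split_ifs <;> norm_num

lemma ind_le_one (T A : Finset α) : ind T A ≤ 1 := by
  unfold ind; split_ifs <;> norm_num

lemma ind_mono (T : Finset α) : Monotone (ind T) := by
  intro A B hAB
  unfold ind
  split_ifs with h1 h2
  · exact le_rfl
  · exact absurd (h1.trans hAB) h2
  · norm_num
  · exact le_rfl

lemma ind_mul_ind (S T A : Finset α) : ind S A * ind T A = ind (S ∪ T) A := by
  unfold ind
  by_cases h1 : S ⊆ A <;> by_cases h2 : T ⊆ A <;> simp [h1, h2, union_subset_iff]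

lemma wt_insert {π : α → ℝ} {e : α} {A : Finset α} (he : e ∉ A) :
    wt π (insert e A) * (1 - π e) = wt π A * π e := by
  unfold wt
  rw [← mul_prod_erase univ _ (mem_univ e), ← mul_prod_erase univ (fun a => if a ∈ A then _ else _)
    (mem_univ e)]
  have : ∏ x ∈ univ.erase e, (if x ∈ insert e A then π x else 1 - π x)
      = ∏ x ∈ univ.erase e, (if x ∈ A then π x else 1 - π x) := by
    refine prod_congr rfl fun x hx => ?_
    have hxe : x ≠ e := (mem_erase.mp hx).1
    simp [hxe]
  rw [this]
  simp only [mem_insert_self, if_true, he, if_false]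
  ring

lemma wt_insert_add {π : α → ℝ} {e : α} {A : Finset α} (he : e ∉ A) :
    wt π (insert e A) = π e * (wt π A + wt π (insert e A)) := by
  have := wt_insert (π := π) he
  linarith

/-- One coordinate is independent of the rest. -/
lemma ex_mem_mul (π : α → ℝ) (e : α) (f : Finset α → ℝ)
    (hf : ∀ A, e ∉ A → f (insert e A) = f A) :
    ex π (fun A => ind {e} A * f A) = π e * ex π f := by
  unfold ex
  have key : ∑ A, wt π A * ((ind {e} A - π e) * f A) = 0 := by
    refine Finset.sum_involution (fun A _ => if e ∈ A then A.erase e else insert e A) ?_ ?_ ?_ ?_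
    · intro A _
      by_cases h : e ∈ A
      · simp only [h, if_true]
        have h1 : e ∉ A.erase e := notMem_erase e A
        have h2 : insert e (A.erase e) = A := insert_erase h
        have h3 := hf (A.erase e) h1
        rw [h2] at h3
        have h4 := wt_insert (π := π) h1
        rw [h2] at h4
        rw [h3]
        have h5 : ind {e} A = 1 := by simp [ind, h]
        have h6 : ind {e} (A.erase e) = 0 := by simp [ind]
        rw [h5, h6]
        linear_combination f (A.erase e) * h4
      · simp only [h, if_false]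
        have h3 := hf A h
        have h4 := wt_insert (π := π) h
        rw [h3]
        have h5 : ind {e} A = 0 := by simp [ind, h]
        have h6 : ind {e} (insert e A) = 1 := by simp [ind]
        rw [h5, h6]
        linear_combination f A * h4
    · intro A _ _
      by_cases h : e ∈ A
      · simp only [h, if_true]
        intro h'
        rw [← h'] at h
        exact notMem_erase e A h
      · simp only [h, if_false]
        intro h'
        rw [← h'] at h
        exact h (mem_insert_self e A)
    · intro A _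
      exact mem_univ _
    · intro A _
      by_cases h : e ∈ A
      · simp [h]
      · simp [h]
  have h2 : ∑ A, wt π A * ((ind {e} A - π e) * f A)
      = ∑ A, wt π A * (ind {e} A * f A) - π e * ∑ A, wt π A * f A := by
    rw [mul_sum, ← sum_sub_distrib]
    exact sum_congr rfl fun A _ => by ring
  linarith

lemma ind_insert_left (e : α) (T A : Finset α) :
    ind (insert e T) A = ind {e} A * ind T A := by
  rw [ind_mul_ind]
  rfl

/-- The event `T ⊆ A` is independent of functions that do not look at `T`. -/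
lemma ex_subset_mul (π : α → ℝ) (T : Finset α) (f : Finset α → ℝ)
    (hf : ∀ e ∈ T, ∀ A, e ∉ A → f (insert e A) = f A) :
    ex π (fun A => ind T A * f A) = (∏ e ∈ T, π e) * ex π f := by
  induction T using Finset.induction_on with
  | empty => simp [ind]
  | insert e T heT ih =>
    rw [prod_insert heT]
    have h1 : (fun A => ind (insert e T) A * f A) = fun A => ind {e} A * (ind T A * f A) := by
      funext A
      rw [ind_insert_left, mul_assoc]
    rw [h1, ex_mem_mul, ih (fun e' he' => hf e' (mem_insert_of_mem he')), mul_assoc]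
    intro A heA
    rw [hf e (mem_insert_self e T) A heA]
    congr 1
    unfold ind
    have : T ⊆ insert e A ↔ T ⊆ A := by
      constructor
      · intro h x hx
        rcases mem_insert.mp (h hx) with h' | h'
        · exact absurd (h' ▸ hx) heT
        · exact h'
      · intro h
        exact h.trans (subset_insert e A)
    simp [this]

lemma ex_ind (π : α → ℝ) (T : Finset α) : ex π (ind T) = ∏ e ∈ T, π e := by
  have h := ex_subset_mul π T (fun _ => 1) (fun _ _ _ _ => rfl)
  rw [ex_const, mul_one] at h
  rw [← h]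
  congr 1
  funext A
  rw [mul_one]

lemma wt_mul_wt (π : α → ℝ) (A B : Finset α) :
    wt π A * wt π B = wt π (A ⊓ B) * wt π (A ⊔ B) := by
  unfold wt
  rw [← prod_mul_distrib, ← prod_mul_distrib]
  refine prod_congr rfl fun a _ => ?_
  by_cases hA : a ∈ A <;> by_cases hB : a ∈ B <;> simp [hA, hB, mul_comm]

/-- Harris inequality. -/
lemma harris {π : α → ℝ} (h0 : ∀ a, 0 ≤ π a) (h1 : ∀ a, π a ≤ 1) {f g : Finset α → ℝ}
    (hf : Antitone f) (hf1 : ∀ A, f A ≤ 1) (hg : Monotone g) (hg0 : ∀ A, 0 ≤ g A) :
    ex π (fun A => f A * g A) ≤ ex π f * ex π g := by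
  have key := fkg (μ := wt π) (f := fun A => 1 - f A) (g := g) (wt_nonneg h0 h1)
    (fun A => by simpa using hf1 A) hg0 (fun A B h => by
      have := hf h
      simp only
      linarith) hg (fun A B => (wt_mul_wt π A B).le)
  have e1 : ∑ A, wt π A * (1 - f A) = 1 - ex π f := by
    have := ex_sub π (fun _ => 1) f
    rw [ex_const] at this
    exact this
  have e2 : ∑ A, wt π A * ((1 - f A) * g A) = ex π g - ex π (fun A => f A * g A) := by
    unfold ex
    rw [← sum_sub_distrib]
    exact sum_congr rfl fun A _ => by ring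
  rw [e1, e2, sum_wt] at key
  have e3 : ∑ A, wt π A * g A = ex π g := rfl
  rw [e3] at key
  nlinarith [key]

end Bernoulli

section Janson

variable {α : Type*} [Fintype α] [DecidableEq α] {ι : Type*} [DecidableEq ι]

/-- `∏ (1 - q 1[T i ⊆ A])`. -/
noncomputable def FF (T : ι → Finset α) (q : ℝ) (I : Finset ι) (A : Finset α) : ℝ :=
  ∏ i ∈ I, (1 - q * ind (T i) A)

variable {T : ι → Finset α} {q : ℝ}

lemma fac_nonneg (hq0 : 0 ≤ q) (hq1 : q ≤ 1) (i : ι) (A : Finset α) :
    0 ≤ 1 - q * ind (T i) A := by
  nlinarith [ind_nonneg (T i) A, ind_le_one (T i) A]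

lemma fac_le_one (hq0 : 0 ≤ q) (i : ι) (A : Finset α) :
    1 - q * ind (T i) A ≤ 1 := by
  nlinarith [ind_nonneg (T i) A, ind_le_one (T i) A]

lemma FF_nonneg (hq0 : 0 ≤ q) (hq1 : q ≤ 1) (I : Finset ι) (A : Finset α) : 0 ≤ FF T q I A :=
  prod_nonneg fun i _ => fac_nonneg hq0 hq1 i A

lemma FF_le_one (hq0 : 0 ≤ q) (hq1 : q ≤ 1) (I : Finset ι) (A : Finset α) : FF T q I A ≤ 1 :=
  prod_le_one (fun i _ => fac_nonneg hq0 hq1 i A) (fun i _ => fac_le_one hq0 i A)

lemma FF_antitone (hq0 : 0 ≤ q) (hq1 : q ≤ 1) (I : Finset ι) : Antitone (FF T q I) := by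
  intro A B hAB
  refine prod_le_prod (fun i _ => fac_nonneg hq0 hq1 i B) fun i _ => ?_
  have := ind_mono (T i) hAB
  nlinarith

lemma FF_lower (hq0 : 0 ≤ q) (hq1 : q ≤ 1) (I : Finset ι) (A : Finset α) :
    1 - ∑ i ∈ I, q * ind (T i) A ≤ FF T q I A := by
  induction I using Finset.induction_on with
  | empty => simp [FF]
  | insert i I hi ih =>
    rw [sum_insert hi]
    have h : FF T q (insert i I) A = (1 - q * ind (T i) A) * FF T q I A := by
      unfold FF
      rw [prod_insert hi]
    rw [h]
    have h1 := fac_nonneg (T := T) hq0 hq1 i A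
    have h2 := fac_le_one (T := T) hq0 i A
    have h3 := FF_le_one (T := T) hq0 hq1 I A
    have h4 := FF_nonneg (T := T) hq0 hq1 I A
    have h5 : 0 ≤ q * ind (T i) A := mul_nonneg hq0 (ind_nonneg _ _)
    nlinarith

/-- The dependency sum. -/
noncomputable def DD (π : α → ℝ) (T : ι → Finset α) (I : Finset ι) : ℝ :=
  ∑ i ∈ I, ∑ j ∈ I.filter (fun j => ¬ Disjoint (T i) (T j)), ∏ e ∈ T i ∪ T j, π e

theorem janson_ff {π : α → ℝ} (h0 : ∀ a, 0 ≤ π a) (h1 : ∀ a, π a ≤ 1)
    (hq0 : 0 ≤ q) (hq1 : q ≤ 1) (I : Finset ι) :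
    ex π (FF T q I) ≤ Real.exp (- q * ∑ i ∈ I, ∏ e ∈ T i, π e + q ^ 2 * DD π T I) := by
  induction I using Finset.induction_on with
  | empty =>
    have : FF T q (∅ : Finset ι) = fun _ => 1 := by
      funext A
      simp [FF]
    rw [this, ex_const]
    simp [DD]
  | insert i I hi ih =>
    set near := I.filter (fun j => ¬ Disjoint (T i) (T j)) with hnear
    set far := I.filter (fun j => Disjoint (T i) (T j)) with hfar
    have hsplit : ∀ A, FF T q I A = FF T q far A * FF T q near A := by
      intro A
      unfold FF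
      rw [hnear, hfar, prod_filter_mul_prod_filter_not]
    have hins : ∀ A, FF T q (insert i I) A = FF T q I A - q * (ind (T i) A * FF T q I A) := by
      intro A
      unfold FF
      rw [prod_insert hi]
      ring
    set P := ∏ e ∈ T i, π e with hP
    set Δ := ∑ j ∈ near, ∏ e ∈ T i ∪ T j, π e with hΔ
    -- independence
    have hindep : ex π (fun A => ind (T i) A * FF T q far A) = P * ex π (FF T q far) := by
      apply ex_subset_mul
      intro e he A heA
      unfold FF
      refine prod_congr rfl fun j hj => ?_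
      have hd : Disjoint (T i) (T j) := (mem_filter.mp hj).2
      have hej : e ∉ T j := fun h => (Finset.disjoint_left.mp hd he h)
      have : ind (T j) (insert e A) = ind (T j) A := by
        unfold ind
        have : T j ⊆ insert e A ↔ T j ⊆ A := by
          rw [subset_insert_iff_of_notMem hej]
        simp [this]
      rw [this]
    -- lower bound
    have hlow : ex π (fun A => ind (T i) A * FF T q I A)
        ≥ ex π (FF T q far) * (P - q * Δ) := by
      have e1 : ∀ A, ind (T i) A * FF T q far A - ∑ j ∈ near, q * (FF T q far A * ind (T i ∪ T j) A)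
          ≤ ind (T i) A * FF T q I A := by
        intro A
        rw [hsplit A]
        have h2 := FF_lower (T := T) hq0 hq1 near A
        have h3 : 0 ≤ ind (T i) A * FF T q far A :=
          mul_nonneg (ind_nonneg _ _) (FF_nonneg hq0 hq1 _ _)
        have h4 := mul_le_mul_of_nonneg_left h2 h3
        have h5 : ind (T i) A * FF T q far A * (1 - ∑ j ∈ near, q * ind (T j) A)
            = ind (T i) A * FF T q far A
              - ∑ j ∈ near, q * (FF T q far A * ind (T i ∪ T j) A) := by
          rw [mul_sub, mul_one, mul_sum]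
          congr 1
          refine sum_congr rfl fun j _ => ?_
          rw [← ind_mul_ind]
          ring
        rw [h5] at h4
        rw [← mul_assoc]
        exact h4
      have e2 := ex_mono h0 h1 e1
      rw [ex_sub, hindep, ex_sum] at e2
      have e3 : ∑ j ∈ near, ex π (fun A => q * (FF T q far A * ind (T i ∪ T j) A))
          ≤ ∑ j ∈ near, q * (ex π (FF T q far) * ∏ e ∈ T i ∪ T j, π e) := by
        refine sum_le_sum fun j _ => ?_
        rw [ex_mul_left]
        refine mul_le_mul_of_nonneg_left ?_ hq0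
        rw [← ex_ind]
        exact harris h0 h1 (FF_antitone hq0 hq1 far) (FF_le_one hq0 hq1 far)
          (ind_mono _) (ind_nonneg _)
      have e4 : ∑ j ∈ near, q * (ex π (FF T q far) * ∏ e ∈ T i ∪ T j, π e)
          = ex π (FF T q far) * (q * Δ) := by
        rw [hΔ, mul_sum, mul_sum]
        exact sum_congr rfl fun j _ => by ring
      rw [e4] at e3
      have e5 : ex π (FF T q far) * (P - q * Δ)
        = P * ex π (FF T q far) - ex π (FF T q far) * (q * Δ) := by ring
      rw [e5]
      linarith
    have hfarI : ex π (FF T q I) ≤ ex π (FF T q far) := by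
      refine ex_mono h0 h1 fun A => ?_
      rw [hsplit A]
      have h3 := FF_nonneg (T := T) hq0 hq1 far A
      have h4 := FF_le_one (T := T) hq0 hq1 near A
      nlinarith
    have hI0 : 0 ≤ ex π (FF T q I) := ex_nonneg h0 h1 (FF_nonneg hq0 hq1 I)
    have hTI0 : 0 ≤ ex π (fun A => ind (T i) A * FF T q I A) :=
      ex_nonneg h0 h1 fun A => mul_nonneg (ind_nonneg _ _) (FF_nonneg hq0 hq1 I A)
    have hlow2 : ex π (fun A => ind (T i) A * FF T q I A) ≥ ex π (FF T q I) * (P - q * Δ) := by
      rcases le_or_gt 0 (P - q * Δ) with h | h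
      · exact le_trans (mul_le_mul_of_nonneg_right hfarI h) hlow
      · have : ex π (FF T q I) * (P - q * Δ) ≤ 0 := by nlinarith
        linarith
    have hstep : ex π (FF T q (insert i I)) ≤ ex π (FF T q I) * Real.exp (-q * P + q ^ 2 * Δ) := by
      have e1 : ex π (FF T q (insert i I))
          = ex π (FF T q I) - q * ex π (fun A => ind (T i) A * FF T q I A) := by
        have : FF T q (insert i I) = fun A => FF T q I A - q * (ind (T i) A * FF T q I A) := by
          funext A
          exact hins A
        rw [this, ex_sub, ex_mul_left]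
      rw [e1]
      have e2 : -q * P + q ^ 2 * Δ + 1 ≤ Real.exp (-q * P + q ^ 2 * Δ) := Real.add_one_le_exp _
      have e3 := mul_le_mul_of_nonneg_left e2 hI0
      have e4 := mul_le_mul_of_nonneg_left hlow2 hq0
      nlinarith
    have hD : DD π T I + Δ ≤ DD π T (insert i I) := by
      unfold DD
      rw [sum_insert hi]
      have nn : ∀ a b : ι, 0 ≤ ∏ e ∈ T a ∪ T b, π e := fun a b => prod_nonneg fun e _ => h0 e
      have h2 : Δ ≤ ∑ j ∈ (insert i I).filter (fun j => ¬ Disjoint (T i) (T j)),
          ∏ e ∈ T i ∪ T j, π e := by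
        refine sum_le_sum_of_subset_of_nonneg ?_ fun j _ _ => nn i j
        exact filter_subset_filter _ (subset_insert i I)
      have h3 : ∑ k ∈ I, ∑ j ∈ I.filter (fun j => ¬ Disjoint (T k) (T j)), ∏ e ∈ T k ∪ T j, π e
          ≤ ∑ k ∈ I, ∑ j ∈ (insert i I).filter (fun j => ¬ Disjoint (T k) (T j)),
            ∏ e ∈ T k ∪ T j, π e := by
        refine sum_le_sum fun k _ => ?_
        refine sum_le_sum_of_subset_of_nonneg ?_ fun j _ _ => nn k j
        exact filter_subset_filter _ (subset_insert i I)
      linarith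
    calc ex π (FF T q (insert i I)) ≤ ex π (FF T q I) * Real.exp (-q * P + q ^ 2 * Δ) := hstep
      _ ≤ Real.exp (- q * ∑ i ∈ I, ∏ e ∈ T i, π e + q ^ 2 * DD π T I)
          * Real.exp (-q * P + q ^ 2 * Δ) := mul_le_mul_of_nonneg_right ih (Real.exp_pos _).le
      _ = Real.exp ((- q * ∑ i ∈ I, ∏ e ∈ T i, π e + q ^ 2 * DD π T I)
          + (-q * P + q ^ 2 * Δ)) := (Real.exp_add _ _).symm
      _ ≤ _ := by
        apply Real.exp_le_exp.mpr
        rw [sum_insert hi]
        have : 0 ≤ q ^ 2 := sq_nonneg q
        nlinarith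

open Classical in
/-- Indicator of the event that no `T i` is contained in the random set. -/
noncomputable def avoid (T : ι → Finset α) (I : Finset ι) (A : Finset α) : ℝ :=
  if ∀ i ∈ I, ¬ T i ⊆ A then 1 else 0

/-- Probability that no `T i` is contained in the random set. -/
theorem janson {π : α → ℝ} (h0 : ∀ a, 0 ≤ π a) (h1 : ∀ a, π a ≤ 1)
    (hq0 : 0 ≤ q) (hq1 : q ≤ 1) (I : Finset ι) :
    ex π (avoid T I)
      ≤ Real.exp (- q * ∑ i ∈ I, ∏ e ∈ T i, π e + q ^ 2 * DD π T I) := by
  refine le_trans (ex_mono h0 h1 fun A => ?_) (janson_ff (T := T) h0 h1 hq0 hq1 I)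
  unfold avoid
  split_ifs with h
  · unfold FF
    rw [prod_eq_one]
    intro i hi
    have : ind (T i) A = 0 := by
      unfold ind
      rw [if_neg (h i hi)]
    rw [this]
    ring
  · exact FF_nonneg hq0 hq1 I A

end Janson

end Pool.Agent.CPR
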