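import Mathlib

/-!
Definitions for the clique-versus-path Ramsey threshold in sparse random graphs.
-/

namespace Pool.Agent.CPR

/-- `Arrows G H₁ H₂` is the Ramsey property `G → (H₁, H₂)`: whenever the edge set of `G` is
split into a red graph `R` and a blue graph `B`, the red graph contains a copy of `H₁` or the
blue graph contains a copy of `H₂`. -/
def Arrows {V W₁ W₂ : Type*} (G : SimpleGraph V) (H₁ : SimpleGraph W₁) (H₂ : SimpleGraph W₂) :
    Prop :=
  ∀ R B : SimpleGraph V, R ⊔ B = G → Disjoint R B → H₁.IsContained R ∨ H₂.IsContained B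

/-- The threshold function `p ^ (-(r+1 choose 2)) * n ^ (-(r-1))`. -/
noncomputable def t0 (r n : ℕ) (p : ℝ) : ℝ := 1 / (p ^ ((r + 1).choose 2) * (n : ℝ) ^ (r - 1))

end Pool.Agent.CPR
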