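import Pool.Agent.CPR.Bernoulli
import Pool.Agent.CPR.Defs

/-!
The binomial random graph of Mathlib as a product Bernoulli measure on sets of pairs.
-/

open Finset SimpleGraph MeasureTheory ProbabilityTheory

set_option linter.unusedSectionVars false

namespace Pool.Agent.CPR

variable {V : Type*} [Fintype V] [DecidableEq V]

/-- Edge probabilities: `p` for genuine pairs and `0` for the diagonal. -/
noncomputable def pr (V : Type*) [DecidableEq V] (p : ℝ) (e : Sym2 V) : ℝ :=
  if e.IsDiag then 0 else p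

lemma pr_nonneg {p : ℝ} (hp : 0 ≤ p) (e : Sym2 V) : 0 ≤ pr V p e := by
  unfold pr; split_ifs <;> simp [hp]

lemma pr_le_one {p : ℝ} (hp : p ≤ 1) (e : Sym2 V) : pr V p e ≤ 1 := by
  unfold pr; split_ifs <;> simp [hp]

lemma prod_pr {p : ℝ} (A : Finset (Sym2 V)) (hA : ∀ e ∈ A, ¬ e.IsDiag) :
    ∏ e ∈ A, pr V p e = p ^ A.card := by
  rw [← prod_const]
  refine prod_congr rfl fun e he => ?_
  unfold pr
  rw [if_neg (hA e he)]

lemma wt_pr (p : unitInterval) (A : Finset (Sym2 V)) (hA : ∀ e ∈ A, ¬ e.IsDiag) :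
    wt (pr V (p : ℝ)) A
      = (setBernoulli (Sym2.diagSetᶜ : Set (Sym2 V)) p).real {(A : Set (Sym2 V))} := by
  classical
  rw [setBernoulli_real_singleton p (by
      intro e he
      simp only [Set.mem_compl_iff, Sym2.mem_diagSet]
      exact hA e he) (Set.toFinite _), wt_eq, prod_pr A hA, Set.ncard_coe_finset]
  congr 1
  have h1 : ∏ e ∈ Aᶜ, (1 - pr V (p : ℝ) e)
      = ∏ e ∈ Aᶜ.filter (fun e => ¬ e.IsDiag), (1 - (p : ℝ)) := by
    rw [prod_filter]
    refine prod_congr rfl fun e _ => ?_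
    unfold pr
    split_ifs <;> simp
  rw [h1, prod_const]
  congr 1
  rw [← Set.ncard_coe_finset]
  congr 1
  ext e
  simp only [coe_filter, mem_compl, Set.mem_ofPred_eq, Set.mem_sdiff, Set.mem_compl_iff,
    Sym2.mem_diagSet, mem_coe]
  tauto

/-- Probability in `G(V,p)`. -/
lemma prob_eq (p : unitInterval) (S : Set (SimpleGraph V)) [DecidablePred (· ∈ S)] :
    (binomialRandom V p).real S
      = ex (pr V (p : ℝ)) (fun A => if fromEdgeSet (A : Set (Sym2 V)) ∈ S then 1 else 0) := by
  classical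
  have h1 : (binomialRandom V p).real S
      = (setBernoulli (Sym2.diagSetᶜ : Set (Sym2 V)) p).real (edgeSet '' S) := by
    rw [measureReal_def, measureReal_def, binomialRandom_apply']
  rw [h1]
  have h2 : (edgeSet '' S : Set (Set (Sym2 V))) = ↑((edgeSet '' S).toFinite.toFinset) := by simp
  rw [h2, ← sum_measureReal_singleton]
  unfold ex
  have h3 : ∀ A : Finset (Sym2 V), (∃ e ∈ A, e.IsDiag) → wt (pr V (p : ℝ)) A = 0 := by
    rintro A ⟨e, he, hd⟩
    unfold wt
    apply prod_eq_zero (mem_univ e)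
    simp [he, pr, hd]
  symm
  refine Finset.sum_bij_ne_zero (fun A _ _ => (A : Set (Sym2 V))) ?_ ?_ ?_ ?_
  · intro A _ hA
    have hnd : ∀ e ∈ A, ¬ e.IsDiag := by
      intro e he hd
      exact hA (by rw [h3 A ⟨e, he, hd⟩, zero_mul])
    have hmem : fromEdgeSet (A : Set (Sym2 V)) ∈ S := by
      by_contra h
      exact hA (by simp [h])
    simp only [Set.Finite.mem_toFinset, Set.mem_image]
    refine ⟨_, hmem, ?_⟩
    rw [edgeSet_fromEdgeSet]
    ext e
    simp only [Set.mem_sdiff, mem_coe, Sym2.mem_diagSet]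
    exact ⟨fun h => h.1, fun h => ⟨h, hnd e h⟩⟩
  · intro A _ _ B _ _ h
    exact_mod_cast h
  · intro s hs hne
    simp only [Set.Finite.mem_toFinset, Set.mem_image] at hs
    obtain ⟨G, hG, rfl⟩ := hs
    have hG' : fromEdgeSet (G.edgeFinset : Set (Sym2 V)) = G := by simp
    have hw := wt_pr p G.edgeFinset (fun e he =>
      G.not_isDiag_of_mem_edgeSet (by simpa using he))
    refine ⟨G.edgeFinset, mem_univ _, ?_, by simp⟩
    simp only [hG']
    rw [if_pos hG, mul_one, hw]
    simpa using hne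
  · intro A _ hA
    have hnd : ∀ e ∈ A, ¬ e.IsDiag := by
      intro e he hd
      exact hA (by rw [h3 A ⟨e, he, hd⟩, zero_mul])
    have hmem : fromEdgeSet (A : Set (Sym2 V)) ∈ S := by
      by_contra h
      exact hA (by simp [h])
    beta_reduce
    rw [if_pos hmem, mul_one, wt_pr p A hnd]

/-! ### Edge sets of cliques -/

/-- The pairs of distinct elements of `s`. -/
def cl (s : Finset V) : Finset (Sym2 V) := s.offDiag.image (Function.uncurry Sym2.mk)

lemma mem_cl {s : Finset V} {a b : V} : s(a, b) ∈ cl s ↔ a ∈ s ∧ b ∈ s ∧ a ≠ b := by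
  unfold cl
  simp only [mem_image, mem_offDiag, Prod.exists, Function.uncurry]
  constructor
  · rintro ⟨c, d, ⟨hc, hd, hne⟩, h⟩
    rw [Sym2.eq_iff] at h
    rcases h with ⟨rfl, rfl⟩ | ⟨rfl, rfl⟩
    · exact ⟨hc, hd, hne⟩
    · exact ⟨hd, hc, hne.symm⟩
  · rintro ⟨ha, hb, hne⟩
    exact ⟨a, b, ⟨ha, hb, hne⟩, rfl⟩

lemma card_cl (s : Finset V) : (cl s).card = s.card.choose 2 := Sym2.card_image_offDiag s

lemma cl_not_diag (s : Finset V) : ∀ e ∈ cl s, ¬ e.IsDiag := by
  intro e
  induction e using Sym2.ind with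
  | _ a b =>
    intro he
    rw [mem_cl] at he
    simpa using he.2.2

lemma cl_inter (s t : Finset V) : cl s ∩ cl t = cl (s ∩ t) := by
  ext e
  induction e using Sym2.ind with
  | _ a b =>
    simp only [mem_inter, mem_cl]
    tauto

lemma card_cl_union (s t : Finset V) :
    (cl s ∪ cl t).card + (s ∩ t).card.choose 2 = s.card.choose 2 + t.card.choose 2 := by
  rw [← card_cl s, ← card_cl t, ← card_cl (s ∩ t), ← cl_inter, card_union_add_card_inter]

lemma cl_disjoint_of (s t : Finset V) (h : (s ∩ t).card < 2) : Disjoint (cl s) (cl t) := by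
  rw [disjoint_iff_inter_eq_empty, cl_inter, ← card_eq_zero, card_cl]
  exact Nat.choose_eq_zero_of_lt h

lemma prod_cl {p : ℝ} (s : Finset V) : ∏ e ∈ cl s, pr V p e = p ^ (s.card.choose 2) := by
  rw [prod_pr _ (cl_not_diag s), card_cl]

lemma not_diag_union (s t : Finset V) : ∀ e ∈ cl s ∪ cl t, ¬ e.IsDiag := by
  intro e he
  rcases mem_union.mp he with h | h
  · exact cl_not_diag s e h
  · exact cl_not_diag t e h

end Pool.Agent.CPR
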