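import Pool.Agent.CPR.Struct
import Pool.Agent.CPR.Arith

/-!
The upper bound for the probability that `G(V,p)` arrows.
-/

open Finset SimpleGraph

set_option linter.unusedSectionVars false

namespace Pool.Agent.CPR

variable {V : Type*} [Fintype V] [DecidableEq V]

/-- The constant `c`. -/
noncomputable def smallc (r : ℕ) : ℝ := 1 / (16 * (r : ℝ) ^ r)

theorem lower_prob {r n t : ℕ} (p : unitInterval) (hr : 2 ≤ r) (hn2' : 2 ≤ n)
    (hp0 : 0 < (p : ℝ)) (hp1' : (p : ℝ) ≤ 1) (hn1 : 1 ≤ (n : ℝ) ^ 2 * (p : ℝ) ^ (r + 1))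
    (hn2 : (n : ℝ) ^ 2 * (p : ℝ) ^ (r + 2) ≤ 1) (ht0 : 16 * (r : ℝ) ^ (r + 1) ≤ t0 r n p)
    (ht : (t : ℝ) ≤ smallc r * t0 r n p) (htr : t + r ≤ n - 1)
    (hV : Fintype.card V = r * n + t) :
    (binomialRandom V p).real
      {G | Arrows G (⊤ : SimpleGraph (Fin (r + 1))) (pathGraph n)}
        ≤ 8 * kap (r + 1) * (r : ℝ) ^ r / n := by
  classical
  have hp1 : (p : ℝ) ≤ 1 := p.2.2
  have hrn : r * n + t = (t + r) + r * (n - 1) := by
    obtain ⟨m, rfl⟩ : ∃ m, n = m + 1 := ⟨n - 1, by omega⟩
    rw [Nat.add_sub_cancel]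
    ring
  obtain ⟨X, _, hX⟩ := exists_subset_card_eq (s := (univ : Finset V)) (n := t + r)
    (by rw [card_univ, hV]; omega)
  have hXc : Xᶜ.card = r * (n - 1) := by
    rw [card_compl, hV, hX, hrn]
    omega
  rw [prob_eq]
  set W : Fin (r + 1) → Finset V := fun i => if i = 0 then X else Xᶜ with hW
  set I := (Fintype.piFinset W).filter (fun x => Function.Injective x) with hI
  have hII : ∀ x ∈ I, (∀ i, x i ∈ W i) ∧ Function.Injective x := by
    intro x hx
    rw [hI, mem_filter, Fintype.mem_piFinset] at hx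
    exact hx
  have hn0 : (0 : ℝ) < n := by exact_mod_cast (by omega : 0 < n)
  have hr0 : (0 : ℝ) < r := by exact_mod_cast (by omega : 0 < r)
  have hr1 : (1 : ℝ) ≤ r := by exact_mod_cast (by omega : 1 ≤ r)
  have ht0pos : 0 < t0 r n p := t0_pos hp0 (by omega)
  have hcover : ∀ A : Finset (Sym2 V),
      (if fromEdgeSet (A : Set (Sym2 V)) ∈
          {G | Arrows G (⊤ : SimpleGraph (Fin (r + 1))) (pathGraph n)} then (1 : ℝ) else 0)
        ≤ if (n : ℝ) / 2 ≤ ∑ x ∈ I, ind (tx x) A then 1 else 0 := by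
    intro A
    by_cases h : (n : ℝ) / 2 ≤ ∑ x ∈ I, ind (tx x) A
    · rw [if_pos h]
      split_ifs <;> norm_num
    · rw [if_neg h]
      push Not at h
      rw [if_neg]
      -- few cliques
      set IA := I.filter (fun x => tx x ⊆ A) with hIA
      have hsum : ∑ x ∈ I, ind (tx x) A = IA.card := by
        unfold ind
        rw [← sum_filter, sum_const, nsmul_eq_mul, mul_one]
      rw [hsum] at h
      have hc : 2 * IA.card < n := by
        have h2 : (2 : ℝ) * IA.card < n := by linarith
        exact_mod_cast h2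
      refine lower_det _ r n hr (by omega) X (by omega) (by rw [hV, hX, hrn]) IA ?_ ?_ (by omega)
      · intro x hx0 hxi hadj
        have hinj : Function.Injective x := by
          intro i j hij
          by_contra hne
          have := hadj i j hne
          rw [hij] at this
          exact SimpleGraph.irrefl _ this
        rw [hIA, mem_filter, hI, mem_filter, Fintype.mem_piFinset]
        refine ⟨⟨?_, hinj⟩, ?_⟩
        · intro i
          by_cases hi : i = 0
          · subst hi
            simpa [hW] using hx0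
          · simp only [hW, if_neg hi, mem_compl]
            exact hxi i hi
        · intro e
          induction e using Sym2.ind with
          | _ a b =>
            intro he
            unfold tx at he
            rw [mem_cl] at he
            obtain ⟨ha, hb, hab⟩ := he
            obtain ⟨i, _, rfl⟩ := mem_image.mp ha
            obtain ⟨j, _, rfl⟩ := mem_image.mp hb
            have := hadj i j (fun h => hab (by rw [h]))
            rw [fromEdgeSet_adj] at this
            exact_mod_cast this.1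
      · intro x hx i hi
        have := (hII x (mem_filter.mp hx).1).1 i
        simp only [hW, if_neg hi, mem_compl] at this
        exact this
  have h0 : ∀ e : Sym2 V, 0 ≤ pr V (p : ℝ) e := fun e => pr_nonneg hp0.le e
  have h1 : ∀ e : Sym2 V, pr V (p : ℝ) e ≤ 1 := fun e => pr_le_one hp1 e
  refine le_trans (ex_mono h0 h1 hcover) ?_
  set μ := EJ W p univ with hμ
  set K := (r + 1).choose 2 with hK
  -- the value of `μ`
  have hWc : ∀ i, i ≠ 0 → ((W i).card : ℝ) = r * ((n : ℝ) - 1) := by
    intro i hi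
    simp only [hW, if_neg hi, hXc]
    rw [Nat.cast_mul, Nat.cast_sub (by omega)]
    simp
  have hW0 : ((W 0).card : ℝ) = t + r := by
    simp only [hW, if_true, hX]
    push_cast
    ring
  have hn1' : (0 : ℝ) < (n : ℝ) - 1 := by
    have : (2 : ℝ) ≤ n := by exact_mod_cast hn2'
    linarith
  have hμ' : μ = (t + r) * (r * ((n : ℝ) - 1)) ^ r * (p : ℝ) ^ K := by
    rw [hμ, EJ, card_univ, Fintype.card_fin, Fin.prod_univ_succ, hW0]
    have : ∏ i : Fin r, ((W i.succ).card : ℝ) = (r * ((n : ℝ) - 1)) ^ r := by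
      rw [prod_congr rfl (fun i _ => hWc i.succ (Fin.succ_ne_zero i)), prod_const, card_univ,
        Fintype.card_fin]
    rw [this]
  have hμpos : 0 < μ := by
    rw [hμ']
    positivity
  have hq := t0_mul (r := r) hp0 (by omega : 0 < n) (by omega)
  have hμn : μ ≤ n / 8 := by
    have e1 : μ ≤ (t + r) * (r * (n : ℝ)) ^ r * (p : ℝ) ^ K := by
      rw [hμ']
      gcongr
      linarith
    have e2 : (t + r : ℝ) ≤ t0 r n p / (8 * (r : ℝ) ^ r) := by
      rw [le_div_iff₀ (by positivity)]
      have e3 : (t : ℝ) * (16 * (r : ℝ) ^ r) ≤ t0 r n p := by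
        have : smallc r * t0 r n p * (16 * (r : ℝ) ^ r) = t0 r n p := by
          unfold smallc
          field_simp
        calc (t : ℝ) * (16 * (r : ℝ) ^ r) ≤ smallc r * t0 r n p * (16 * (r : ℝ) ^ r) :=
              mul_le_mul_of_nonneg_right ht (by positivity)
          _ = t0 r n p := this
      have e4 : (r : ℝ) ^ (r + 1) = (r : ℝ) ^ r * r := pow_succ _ _
      nlinarith
    calc μ ≤ (t + r) * (r * (n : ℝ)) ^ r * (p : ℝ) ^ K := e1
      _ ≤ (t0 r n p / (8 * (r : ℝ) ^ r)) * (r * (n : ℝ)) ^ r * (p : ℝ) ^ K := by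
          gcongr
      _ = (t0 r n p * ((n : ℝ) ^ r * (p : ℝ) ^ K)) / 8 := by
          rw [mul_pow]
          field_simp
      _ = n / 8 := by rw [hq]
  set L := μ ^ 2 / ((r : ℝ) ^ r * n) with hL
  have hLpos : 0 < L := by positivity
  have hrr : (1 : ℝ) ≤ (r : ℝ) ^ r := one_le_pow₀ hr1
  have hE : ∀ J : Finset (Fin (r + 1)), 2 ≤ J.card → L ≤ EJ W p J := by
    intro J hJ
    have hJr : J.card ≤ r + 1 := by
      have := card_le_univ J
      rwa [Fintype.card_fin] at this
    set j := J.card with hj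
    by_cases hz : (0 : Fin (r + 1)) ∈ J
    · have hval : EJ W p J = (t + r) * (r * ((n : ℝ) - 1)) ^ (j - 1) * (p : ℝ) ^ (j.choose 2) := by
        unfold EJ
        rw [← mul_prod_erase J _ hz, hW0,
          prod_congr rfl (fun i hi => hWc i (mem_erase.mp hi).1), prod_const,
          card_erase_of_mem hz]
      have h2 := a2 (n := n) hp0 hp1 hn2 hJ hJr
      have hch : j.choose 2 ≤ K := Nat.choose_le_choose 2 hJr
      have hEpos : 0 < EJ W p J := by rw [hval]; positivity
      have hμE : μ ≤ (r : ℝ) ^ r * EJ W p J := by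
        have e1 : μ = EJ W p J *
            ((r * ((n : ℝ) - 1)) ^ (r + 1 - j) * (p : ℝ) ^ (K - j.choose 2)) := by
          rw [hμ', hval]
          have e2 : (r * ((n : ℝ) - 1)) ^ r
              = (r * ((n : ℝ) - 1)) ^ (j - 1) * (r * ((n : ℝ) - 1)) ^ (r + 1 - j) := by
            rw [← pow_add]; congr 1; omega
          have e3 : (p : ℝ) ^ K = (p : ℝ) ^ (j.choose 2) * (p : ℝ) ^ (K - j.choose 2) := by
            rw [← pow_add]; congr 1; omega
          rw [e2, e3]; ring
        have e4 : (r * ((n : ℝ) - 1)) ^ (r + 1 - j) * (p : ℝ) ^ (K - j.choose 2)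
            ≤ (r : ℝ) ^ r := by
          calc (r * ((n : ℝ) - 1)) ^ (r + 1 - j) * (p : ℝ) ^ (K - j.choose 2)
              ≤ (r * (n : ℝ)) ^ (r + 1 - j) * (p : ℝ) ^ (K - j.choose 2) := by
                gcongr
                linarith
            _ = (r : ℝ) ^ (r + 1 - j)
                * ((n : ℝ) ^ (r + 1 - j) * (p : ℝ) ^ (K - j.choose 2)) := by
                rw [mul_pow]; ring
            _ ≤ (r : ℝ) ^ (r + 1 - j) * 1 := mul_le_mul_of_nonneg_left h2 (by positivity)
            _ ≤ (r : ℝ) ^ r := by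
                rw [mul_one]
                exact pow_le_pow_right₀ hr1 (by omega)
        calc μ = EJ W p J *
            ((r * ((n : ℝ) - 1)) ^ (r + 1 - j) * (p : ℝ) ^ (K - j.choose 2)) := e1
          _ ≤ EJ W p J * (r : ℝ) ^ r := mul_le_mul_of_nonneg_left e4 hEpos.le
          _ = _ := mul_comm _ _
      rw [hL, div_le_iff₀ (by positivity)]
      have h3 : μ ≤ n := by linarith
      calc μ ^ 2 = μ * μ := sq μ
        _ ≤ ((r : ℝ) ^ r * EJ W p J) * n := mul_le_mul hμE h3 hμpos.le (by positivity)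
        _ = _ := by ring
    · have hval : EJ W p J = (r * ((n : ℝ) - 1)) ^ j * (p : ℝ) ^ (j.choose 2) := by
        unfold EJ
        rw [prod_congr rfl (fun i hi => hWc i (fun h => hz (h ▸ hi))), prod_const]
      have hjr : j ≤ r := by
        have hsub : J ⊆ univ.erase 0 := by
          intro i hi
          rw [mem_erase]
          exact ⟨fun h => hz (h ▸ hi), mem_univ _⟩
        have := card_le_card hsub
        rw [card_erase_of_mem (mem_univ _), card_univ, Fintype.card_fin] at this
        omega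
      have h2 := a1 (n := n) (M := 1) hp0 hp1 le_rfl (by linarith) hn1 hJ hjr
      have hnr : (n : ℝ) ≤ r * ((n : ℝ) - 1) := by
        have e1 : (2 : ℝ) ≤ r := by exact_mod_cast hr
        have e2 : (2 : ℝ) ≤ n := by exact_mod_cast hn2'
        nlinarith
      have hge : (n : ℝ) ≤ EJ W p J := by
        rw [hval]
        calc (n : ℝ) = n * 1 := (mul_one _).symm
          _ ≤ n * ((n : ℝ) ^ (j - 1) * (p : ℝ) ^ (j.choose 2)) :=
              mul_le_mul_of_nonneg_left h2 hn0.le
          _ = (n : ℝ) ^ j * (p : ℝ) ^ (j.choose 2) := by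
              have : (n : ℝ) ^ j = (n : ℝ) ^ (j - 1) * n := by
                rw [← pow_succ]; congr 1; omega
              rw [this]; ring
          _ ≤ _ := by gcongr
      refine le_trans ?_ hge
      rw [hL, div_le_iff₀ (by positivity)]
      have h3 : μ ≤ n := by linarith
      calc μ ^ 2 = μ * μ := sq μ
        _ ≤ n * n := mul_le_mul h3 h3 hμpos.le hn0.le
        _ ≤ n * ((r : ℝ) ^ r * n) := by
            apply mul_le_mul_of_nonneg_left _ hn0.le
            nlinarith
  have hcheb := chebyshev (s := (n : ℝ) / 2) (by omega) W hp0 hp1 hLpos hE I hII (by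
    change μ < _
    linarith)
  refine hcheb.trans ?_
  change kap (r + 1) * μ ^ 2 / L / ((n : ℝ) / 2 - μ) ^ 2 ≤ _
  have e1 : kap (r + 1) * μ ^ 2 / L = kap (r + 1) * ((r : ℝ) ^ r * n) := by
    rw [hL]
    field_simp
  rw [e1]
  have hκ : 0 < kap (r + 1) := by
    unfold kap
    positivity
  have e2 : (3 * (n : ℝ) / 8) ^ 2 ≤ ((n : ℝ) / 2 - μ) ^ 2 := by
    apply pow_le_pow_left₀ (by positivity)
    linarith
  calc kap (r + 1) * ((r : ℝ) ^ r * n) / ((n : ℝ) / 2 - μ) ^ 2
      ≤ kap (r + 1) * ((r : ℝ) ^ r * n) / (3 * (n : ℝ) / 8) ^ 2 :=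
        div_le_div_of_nonneg_left (by positivity) (by positivity) e2
    _ = (64 / 9) * (kap (r + 1) * (r : ℝ) ^ r / n) := by
        field_simp
        ring
    _ ≤ 8 * (kap (r + 1) * (r : ℝ) ^ r / n) := by
        apply mul_le_mul_of_nonneg_right (by norm_num) (by positivity)
    _ = _ := by ring

end Pool.Agent.CPR
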