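import Pool.Agent.CPR.Bridge

/-!
The sum over dependent pairs of cliques, and the two probability estimates.
-/

open Finset SimpleGraph

set_option linter.unusedSectionVars false

namespace Pool.Agent.CPR

variable {V : Type*} [Fintype V] [DecidableEq V]

/-- The edge set of the clique spanned by `x`. -/
def tx {k : ℕ} (x : Fin k → V) : Finset (Sym2 V) := cl (univ.image x)

lemma card_image_inj {k : ℕ} {x : Fin k → V} (hx : Function.Injective x) :
    (univ.image x).card = k := by
  rw [card_image_of_injective _ hx, card_univ, Fintype.card_fin]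

lemma prod_tx {k : ℕ} {p : ℝ} {x : Fin k → V} (hx : Function.Injective x) :
    ∏ e ∈ tx x, pr V p e = p ^ (k.choose 2) := by
  unfold tx
  rw [prod_cl, card_image_inj hx]

/-- The expected number of copies of the clique on the parts in `J`. -/
noncomputable def EJ {k : ℕ} (W : Fin k → Finset V) (p : ℝ) (J : Finset (Fin k)) : ℝ :=
  (∏ j ∈ J, ((W j).card : ℝ)) * p ^ (J.card.choose 2)

/-- The set of indices `j` with `y j` among the values of `x`. -/
def ov {k : ℕ} (x y : Fin k → V) : Finset (Fin k) := univ.filter (fun j => y j ∈ univ.image x)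

lemma card_ov {k : ℕ} {x y : Fin k → V} (hy : Function.Injective y) :
    (ov x y).card = (univ.image x ∩ univ.image y).card := by
  have : univ.image x ∩ univ.image y = (ov x y).image y := by
    ext v
    simp only [mem_inter, mem_image, mem_univ, true_and, ov, mem_filter]
    constructor
    · rintro ⟨⟨a, ha⟩, ⟨b, hb⟩⟩
      exact ⟨b, ⟨a, by rw [ha, hb]⟩, hb⟩
    · rintro ⟨b, ⟨a, ha⟩, hb⟩
      exact ⟨⟨a, by rw [ha, hb]⟩, ⟨b, hb⟩⟩
  rw [this, card_image_of_injective _ hy]

lemma card_ov_fiber {k : ℕ} (W : Fin k → Finset V) (x : Fin k → V) (J : Finset (Fin k))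
    (B : Finset (Fin k → V)) (hB : ∀ y ∈ B, (∀ i, y i ∈ W i) ∧ ov x y = J) :
    (B.card : ℝ) ≤ (k : ℝ) ^ J.card * ∏ j ∈ Jᶜ, ((W j).card : ℝ) := by
  classical
  have hsub : B ⊆ Fintype.piFinset (fun j => if j ∈ J then univ.image x else W j) := by
    intro y hy
    obtain ⟨h1, h2⟩ := hB y hy
    rw [Fintype.mem_piFinset]
    intro j
    split_ifs with hj
    · rw [← h2] at hj
      exact (mem_filter.mp hj).2
    · exact h1 j
  have h := card_le_card hsub
  rw [Fintype.card_piFinset] at h
  have h2 : (∏ j, ((if j ∈ J then univ.image x else W j).card : ℝ))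
      ≤ (k : ℝ) ^ J.card * ∏ j ∈ Jᶜ, ((W j).card : ℝ) := by
    rw [← prod_mul_prod_compl J]
    refine mul_le_mul ?_ ?_ (prod_nonneg fun _ _ => by positivity) (by positivity)
    · rw [← prod_const]
      refine prod_le_prod (fun _ _ => by positivity) fun j hj => ?_
      rw [if_pos hj]
      have : (univ.image x).card ≤ k := by
        refine card_image_le.trans ?_
        rw [card_univ, Fintype.card_fin]
      exact_mod_cast this
    · refine le_of_eq (prod_congr rfl fun j hj => ?_)
      rw [if_neg (mem_compl.mp hj)]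
  calc (B.card : ℝ) ≤ ((∏ j, (if j ∈ J then univ.image x else W j).card : ℕ) : ℝ) := by
        exact_mod_cast h
    _ = ∏ j, ((if j ∈ J then univ.image x else W j).card : ℝ) := by push_cast; rfl
    _ ≤ _ := h2

/-- The constant of the pair estimate. -/
noncomputable def kap (k : ℕ) : ℝ := (2 * (k : ℝ)) ^ k

/-- Sum over dependent pairs. -/
theorem pair_sum {k : ℕ} (hk : 1 ≤ k) (W : Fin k → Finset V) {p L : ℝ} (hp0 : 0 < p) (hp1 : p ≤ 1)
    (hL : 0 < L) (hE : ∀ J : Finset (Fin k), 2 ≤ J.card → L ≤ EJ W p J)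
    (I : Finset (Fin k → V)) (hI : ∀ x ∈ I, (∀ i, x i ∈ W i) ∧ Function.Injective x) :
    DD (pr V p) tx I ≤ kap k * (EJ W p univ) ^ 2 / L := by
  classical
  set K := k.choose 2 with hK
  set μ := EJ W p univ with hμ
  have hμ' : μ = (∏ j, ((W j).card : ℝ)) * p ^ K := by
    rw [hμ, EJ, card_univ, Fintype.card_fin]
  -- bound for one `x`
  have hone : ∀ x ∈ I, ∑ y ∈ I.filter (fun y => ¬ Disjoint (tx x) (tx y)),
      ∏ e ∈ tx x ∪ tx y, pr V p e ≤ (2 * (k : ℝ)) ^ k * (p ^ K * (μ / L)) := by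
    intro x hx
    set F := I.filter (fun y => ¬ Disjoint (tx x) (tx y)) with hF
    have hmap : ∀ y ∈ F, ov x y ∈ (univ : Finset (Finset (Fin k))) := fun y _ => mem_univ _
    rw [← sum_fiberwise_of_maps_to hmap]
    have hJ : ∀ J : Finset (Fin k), ∑ y ∈ F with ov x y = J, ∏ e ∈ tx x ∪ tx y, pr V p e
        ≤ (k : ℝ) ^ k * (p ^ K * (μ / L)) := by
      intro J
      by_cases hJ2 : 2 ≤ J.card
      · have hterm : ∀ y ∈ F.filter (fun y => ov x y = J),
            ∏ e ∈ tx x ∪ tx y, pr V p e = p ^ (2 * K - J.card.choose 2) := by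
          intro y hy
          obtain ⟨hyF, hyJ⟩ := mem_filter.mp hy
          have hyI := (mem_filter.mp hyF).1
          have hyinj := (hI y hyI).2
          have hxinj := (hI x hx).2
          unfold tx
          rw [prod_pr _ (not_diag_union _ _)]
          congr 1
          have h1 := card_cl_union (univ.image x) (univ.image y)
          rw [← card_ov hyinj, hyJ, card_image_inj hxinj, card_image_inj hyinj] at h1
          omega
        rw [sum_congr rfl hterm, sum_const, nsmul_eq_mul]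
        have hcard := card_ov_fiber W x J (F.filter (fun y => ov x y = J)) (by
          intro y hy
          obtain ⟨hyF, hyJ⟩ := mem_filter.mp hy
          exact ⟨(hI y (mem_filter.mp hyF).1).1, hyJ⟩)
        have hJk : J.card ≤ k := by
          have := card_le_univ J
          rwa [Fintype.card_fin] at this
        have hch : J.card.choose 2 ≤ K := Nat.choose_le_choose 2 hJk
        have hEpos : 0 < EJ W p J := lt_of_lt_of_le hL (hE J hJ2)
        -- the product over the complement
        have hprod : (∏ j ∈ Jᶜ, ((W j).card : ℝ)) * p ^ (K - J.card.choose 2) = μ / EJ W p J := by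
          rw [eq_div_iff hEpos.ne', hμ', EJ]
          have e1 : (∏ j, ((W j).card : ℝ))
              = (∏ j ∈ J, ((W j).card : ℝ)) * ∏ j ∈ Jᶜ, ((W j).card : ℝ) :=
            (prod_mul_prod_compl J _).symm
          have e2 : p ^ K = p ^ (K - J.card.choose 2) * p ^ (J.card.choose 2) := by
            rw [← pow_add]; congr 1; omega
          rw [e1, e2]
          ring
        have hμ0 : 0 ≤ μ := by
          rw [hμ']
          exact mul_nonneg (prod_nonneg fun _ _ => by positivity) (by positivity)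
        have hdiv : μ / EJ W p J ≤ μ / L := div_le_div_of_nonneg_left hμ0 hL (hE J hJ2)
        have hk1 : (1 : ℝ) ≤ k := by exact_mod_cast hk
        calc ((F.filter (fun y => ov x y = J)).card : ℝ) * p ^ (2 * K - J.card.choose 2)
            ≤ ((k : ℝ) ^ J.card * ∏ j ∈ Jᶜ, ((W j).card : ℝ)) * p ^ (2 * K - J.card.choose 2) :=
              mul_le_mul_of_nonneg_right hcard (by positivity)
          _ = (k : ℝ) ^ J.card * (p ^ K *
                ((∏ j ∈ Jᶜ, ((W j).card : ℝ)) * p ^ (K - J.card.choose 2))) := by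
              have : p ^ (2 * K - J.card.choose 2) = p ^ K * p ^ (K - J.card.choose 2) := by
                rw [← pow_add]; congr 1; omega
              rw [this]; ring
          _ = (k : ℝ) ^ J.card * (p ^ K * (μ / EJ W p J)) := by rw [hprod]
          _ ≤ (k : ℝ) ^ k * (p ^ K * (μ / L)) := by
              refine mul_le_mul (pow_le_pow_right₀ hk1 hJk) ?_ ?_ (by positivity)
              · exact mul_le_mul_of_nonneg_left hdiv (by positivity)
              · exact mul_nonneg (by positivity) (div_nonneg hμ0 hEpos.le)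
      · have hempty : F.filter (fun y => ov x y = J) = ∅ := by
          rw [filter_eq_empty_iff]
          intro y hy hyJ
          have hyI := (mem_filter.mp hy).1
          apply (mem_filter.mp hy).2
          unfold tx
          apply cl_disjoint_of
          rw [← card_ov (hI y hyI).2, hyJ]
          omega
        rw [hempty, sum_empty]
        have hμ0 : 0 ≤ μ := by
          rw [hμ']
          exact mul_nonneg (prod_nonneg fun _ _ => by positivity) (by positivity)
        positivity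
    calc ∑ J : Finset (Fin k), ∑ y ∈ F with ov x y = J, ∏ e ∈ tx x ∪ tx y, pr V p e
        ≤ ∑ _J : Finset (Fin k), (k : ℝ) ^ k * (p ^ K * (μ / L)) := sum_le_sum fun J _ => hJ J
      _ = (2 * (k : ℝ)) ^ k * (p ^ K * (μ / L)) := by
        rw [sum_const, card_univ, Fintype.card_finset, Fintype.card_fin, nsmul_eq_mul, mul_pow]
        push_cast
        ring
  have hIcard : (I.card : ℝ) ≤ ∏ j, ((W j).card : ℝ) := by
    have hsub : I ⊆ Fintype.piFinset W := by
      intro x hx
      rw [Fintype.mem_piFinset]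
      exact (hI x hx).1
    have h := card_le_card hsub
    rw [Fintype.card_piFinset] at h
    exact_mod_cast h
  have hμ0 : 0 ≤ μ := by
    rw [hμ']
    exact mul_nonneg (prod_nonneg fun _ _ => by positivity) (by positivity)
  calc DD (pr V p) tx I ≤ ∑ _x ∈ I, (2 * (k : ℝ)) ^ k * (p ^ K * (μ / L)) := sum_le_sum hone
    _ = (I.card : ℝ) * ((2 * (k : ℝ)) ^ k * (p ^ K * (μ / L))) := by
        rw [sum_const, nsmul_eq_mul]
    _ ≤ (∏ j, ((W j).card : ℝ)) * ((2 * (k : ℝ)) ^ k * (p ^ K * (μ / L))) :=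
        mul_le_mul_of_nonneg_right hIcard (by positivity)
    _ = kap k * μ ^ 2 / L := by
        rw [kap, hμ']
        ring

lemma arith_q {L μ κ : ℝ} (hL : 0 < L) (hLμ : L ≤ μ) (hκ : 1 ≤ κ) :
    ∃ q : ℝ, 0 ≤ q ∧ q ≤ 1 ∧ q ^ 2 * (κ * μ ^ 2 / L) = L / (4 * κ) ∧ q * μ = 2 * (L / (4 * κ)) := by
  have hμ : 0 < μ := lt_of_lt_of_le hL hLμ
  have hκ0 : 0 < κ := by linarith
  refine ⟨L / (2 * κ * μ), by positivity, ?_, ?_, ?_⟩
  · rw [div_le_one (by positivity)]
    nlinarith
  · field_simp
    ring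
  · field_simp
    ring

/-- Janson: the probability that there is no transversal clique. -/
theorem no_transversal {k : ℕ} (hk : 2 ≤ k) (W : Fin k → Finset V) {p L : ℝ}
    (hp0 : 0 < p) (hp1 : p ≤ 1)
    (hL : 0 < L) (hE : ∀ J : Finset (Fin k), 2 ≤ J.card → L ≤ EJ W p J)
    (hW : ∀ i j, i ≠ j → Disjoint (W i) (W j)) :
    ex (pr V p) (avoid tx (Fintype.piFinset W)) ≤ Real.exp (- (L / (4 * kap k))) := by
  classical
  set μ := EJ W p univ with hμ
  have hinj : ∀ x ∈ Fintype.piFinset W, Function.Injective x := by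
    intro x hx i j hij
    by_contra hne
    rw [Fintype.mem_piFinset] at hx
    exact disjoint_left.mp (hW i j hne) (hx i) (hij ▸ hx j)
  have hI : ∀ x ∈ Fintype.piFinset W, (∀ i, x i ∈ W i) ∧ Function.Injective x :=
    fun x hx => ⟨Fintype.mem_piFinset.mp hx, hinj x hx⟩
  have hsum : ∑ x ∈ Fintype.piFinset W, ∏ e ∈ tx x, pr V p e = μ := by
    rw [sum_congr rfl (fun x hx => prod_tx (hinj x hx)), sum_const, Fintype.card_piFinset,
      nsmul_eq_mul, hμ, EJ, card_univ, Fintype.card_fin]
    push_cast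
    ring
  have hLμ : L ≤ μ := hE univ (by rw [card_univ, Fintype.card_fin]; exact hk)
  have hμpos : 0 < μ := lt_of_lt_of_le hL hLμ
  have hkap : 1 ≤ kap k := by
    unfold kap
    apply one_le_pow₀
    have : (2 : ℝ) ≤ k := by exact_mod_cast hk
    linarith
  have hDD := pair_sum (by omega) W hp0 hp1 hL hE _ hI
  obtain ⟨q, hq0, hq1, h2, h3⟩ := arith_q hL hLμ hkap
  refine le_trans (janson (T := tx) (fun e => pr_nonneg hp0.le e) (fun e => pr_le_one hp1 e)
    hq0 hq1 (Fintype.piFinset W)) ?_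
  apply Real.exp_le_exp.mpr
  rw [hsum]
  have h1 : q ^ 2 * DD (pr V p) tx (Fintype.piFinset W) ≤ q ^ 2 * (kap k * μ ^ 2 / L) :=
    mul_le_mul_of_nonneg_left hDD (sq_nonneg q)
  linarith

/-- Chebyshev: an upper bound for the number of cliques. -/
theorem chebyshev {k : ℕ} (hk : 1 ≤ k) (W : Fin k → Finset V) {p L s : ℝ}
    (hp0 : 0 < p) (hp1 : p ≤ 1)
    (hL : 0 < L) (hE : ∀ J : Finset (Fin k), 2 ≤ J.card → L ≤ EJ W p J)
    (I : Finset (Fin k → V)) (hI : ∀ x ∈ I, (∀ i, x i ∈ W i) ∧ Function.Injective x)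
    (hs : EJ W p univ < s) :
    ex (pr V p) (fun A => if s ≤ ∑ x ∈ I, ind (tx x) A then 1 else 0)
      ≤ (kap k * (EJ W p univ) ^ 2 / L) / (s - EJ W p univ) ^ 2 := by
  classical
  set μ := EJ W p univ with hμ
  set m := ∑ x ∈ I, ∏ e ∈ tx x, pr V p e with hm
  have h0 : ∀ e : Sym2 V, 0 ≤ pr V p e := fun e => pr_nonneg hp0.le e
  have h1 : ∀ e : Sym2 V, pr V p e ≤ 1 := fun e => pr_le_one hp1 e
  have hmμ : m ≤ μ := by
    rw [hm, sum_congr rfl (fun x hx => prod_tx (hI x hx).2), sum_const, nsmul_eq_mul, hμ, EJ,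
      card_univ, Fintype.card_fin]
    refine mul_le_mul_of_nonneg_right ?_ (by positivity)
    have hsub : I ⊆ Fintype.piFinset W := by
      intro x hx
      rw [Fintype.mem_piFinset]
      exact (hI x hx).1
    have h := card_le_card hsub
    rw [Fintype.card_piFinset] at h
    exact_mod_cast h
  have hpt : ∀ A : Finset (Sym2 V), (if s ≤ ∑ x ∈ I, ind (tx x) A then (1 : ℝ) else 0)
      ≤ (1 / (s - μ) ^ 2) * ((∑ x ∈ I, ind (tx x) A) - m) ^ 2 := by
    intro A
    split_ifs with h
    · have h3 : 0 < s - μ := by linarith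
      rw [one_div, inv_mul_eq_div, le_div_iff₀ (by positivity), one_mul]
      have h4 : s - μ ≤ (∑ x ∈ I, ind (tx x) A) - m := by linarith
      exact pow_le_pow_left₀ h3.le h4 2
    · positivity
  refine le_trans (ex_mono h0 h1 hpt) ?_
  rw [ex_mul_left]
  have hvar : ex (pr V p) (fun A => ((∑ x ∈ I, ind (tx x) A) - m) ^ 2) ≤ DD (pr V p) tx I := by
    have e1 : (fun A : Finset (Sym2 V) => ((∑ x ∈ I, ind (tx x) A) - m) ^ 2)
        = fun A => (∑ x ∈ I, ∑ y ∈ I, ind (tx x ∪ tx y) A)
          - ((2 * m) * ∑ x ∈ I, ind (tx x) A - m ^ 2) := by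
      funext A
      have : ∑ x ∈ I, ∑ y ∈ I, ind (tx x ∪ tx y) A
          = (∑ x ∈ I, ind (tx x) A) * ∑ y ∈ I, ind (tx y) A := by
        rw [sum_mul_sum]
        exact sum_congr rfl fun x _ => sum_congr rfl fun y _ => (ind_mul_ind _ _ _).symm
      rw [this]
      ring
    rw [e1, ex_sub, ex_sub, ex_const, ex_mul_left, ex_sum, ex_sum]
    have e2 : ∑ x ∈ I, ex (pr V p) (ind (tx x)) = m := by
      rw [hm]
      exact sum_congr rfl fun x _ => ex_ind _ _
    have e3 : ∀ x ∈ I, ex (pr V p) (fun A => ∑ y ∈ I, ind (tx x ∪ tx y) A)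
        = ∑ y ∈ I, ∏ e ∈ tx x ∪ tx y, pr V p e := by
      intro x _
      rw [ex_sum]
      exact sum_congr rfl fun y _ => ex_ind _ _
    rw [sum_congr rfl e3]
    have e4 : m ^ 2 = ∑ x ∈ I, ∑ y ∈ I, (∏ e ∈ tx x, pr V p e) * ∏ e ∈ tx y, pr V p e := by
      rw [sq, hm, sum_mul_sum]
    have e5 : ∑ x ∈ I, ∑ y ∈ I, ∏ e ∈ tx x ∪ tx y, pr V p e - m ^ 2 ≤ DD (pr V p) tx I := by
      rw [e4, ← sum_sub_distrib]
      unfold DD
      refine sum_le_sum fun x _ => ?_
      rw [← sum_sub_distrib, sum_filter]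
      refine sum_le_sum fun y _ => ?_
      by_cases h : Disjoint (tx x) (tx y)
      · rw [if_neg (not_not.mpr h), prod_union h]
        linarith
      · rw [if_pos h]
        have : 0 ≤ (∏ e ∈ tx x, pr V p e) * ∏ e ∈ tx y, pr V p e :=
          mul_nonneg (prod_nonneg fun e _ => h0 e) (prod_nonneg fun e _ => h0 e)
        linarith
    have e6 : ∑ x ∈ I, ∑ y ∈ I, ∏ e ∈ tx x ∪ tx y, pr V p e
        - (2 * m * ∑ i ∈ I, ex (pr V p) (fun A => ind (tx i) A) - m ^ 2)
        = ∑ x ∈ I, ∑ y ∈ I, ∏ e ∈ tx x ∪ tx y, pr V p e - m ^ 2 := by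
      have : ∑ i ∈ I, ex (pr V p) (fun A => ind (tx i) A) = m := e2
      rw [this]
      ring
    rw [e6]
    exact e5
  have hps := pair_sum hk W hp0 hp1 hL hE I hI
  calc 1 / (s - μ) ^ 2 * ex (pr V p) (fun A => ((∑ x ∈ I, ind (tx x) A) - m) ^ 2)
      ≤ 1 / (s - μ) ^ 2 * (kap k * μ ^ 2 / L) :=
        mul_le_mul_of_nonneg_left (hvar.trans hps) (by positivity)
    _ = _ := by ring

end Pool.Agent.CPR
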