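import Mathlib

/-!
The rotation lemma of Posa, and the separation lemma for graphs without a path on `n` vertices.
-/

open Finset

set_option linter.unusedSectionVars false

namespace Pool.Agent.CPR

variable {V : Type*} [Fintype V] [DecidableEq V]

/-- `l` is a path of `G` inside `W`. -/
def IsPL (G : SimpleGraph V) (W : Finset V) (l : List V) : Prop :=
  l.Nodup ∧ l.IsChain G.Adj ∧ ∀ v ∈ l, v ∈ W

/-- Lists reachable from `P` by rotations. -/
inductive Rch (G : SimpleGraph V) (P : List V) : List V → Prop
  | base : Rch G P P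
  | step (x : V) (l0 : List V) (y : V) (l2 : List V) :
      Rch G P ((x :: l0) ++ y :: l2) → G.Adj x y → Rch G P ((x :: l0).reverse ++ y :: l2)

lemma rot_chain {R : V → V → Prop} (hR : ∀ a b, R a b → R b a) {x : V} {l0 : List V} {y : V}
    {l2 : List V} (h : ((x :: l0) ++ y :: l2).IsChain R) (hxy : R x y) :
    ((x :: l0).reverse ++ y :: l2).IsChain R := by
  rw [List.isChain_append] at h ⊢
  refine ⟨?_, h.2.1, ?_⟩
  · rw [List.isChain_reverse]
    exact h.1.imp fun a b hab => hR a b hab
  · intro a ha b hb
    simp at ha hb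
    rw [← ha, ← hb]
    exact hxy

lemma Rch.isPL {G : SimpleGraph V} {W : Finset V} {P l : List V} (hP : IsPL G W P)
    (h : Rch G P l) : IsPL G W l ∧ l.Perm P := by
  induction h with
  | base => exact ⟨hP, List.Perm.refl _⟩
  | step x l0 y l2 _ hxy ih =>
    have hperm : ((x :: l0).reverse ++ y :: l2).Perm ((x :: l0) ++ y :: l2) :=
      List.Perm.append_right _ (List.reverse_perm _)
    refine ⟨⟨?_, ?_, ?_⟩, hperm.trans ih.2⟩
    · exact hperm.nodup_iff.mpr ih.1.1
    · exact rot_chain (fun a b hab => hab.symm) ih.1.2.1 hxy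
    · intro v hv
      exact ih.1.2.2 v (hperm.mem_iff.mp hv)

lemma card_le_of_rel {S A : Finset V} (R : V → V → Prop)
    (hA : ∀ y ∈ A, ∃ s ∈ S, R s y) (hR : ∀ s y y', y ∈ A → y' ∈ A → R s y → R s y' → y = y') :
    A.card ≤ S.card := by
  classical
  choose! f hf hfR using hA
  refine Finset.card_le_card_of_injOn f (fun y hy => hf y hy) ?_
  intro y hy y' hy' h
  exact hR (f y) y y' hy hy' (hfR y hy) (by rw [h]; exact hfR y' hy')

theorem posa (G : SimpleGraph V) (W : Finset V) (hW : W.Nonempty) :
    ∃ P : List V, IsPL G W P ∧ ∃ S : Finset V, S.Nonempty ∧ (∀ s ∈ S, s ∈ P) ∧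
      (∀ s ∈ S, ∀ v ∈ W, G.Adj s v → v ∈ P) ∧
      ∀ N : Finset V, (∀ v ∈ N, v ∈ W ∧ v ∉ S ∧ ∃ s ∈ S, G.Adj s v) → N.card ≤ 2 * S.card := by
  classical
  -- a longest path
  obtain ⟨P, hP, hmax⟩ : ∃ P : List V, IsPL G W P ∧ ∀ l, IsPL G W l → l.length ≤ P.length := by
    have hbdd : ∀ l, IsPL G W l → l.length ≤ W.card := by
      intro l hl
      rw [← List.toFinset_card_of_nodup hl.1]
      exact card_le_card fun v hv => hl.2.2 v (List.mem_toFinset.mp hv)
    obtain ⟨w, hw⟩ := hW
    have hex : ∃ k, ∃ l, IsPL G W l ∧ W.card - l.length = k := ⟨_, [w], ⟨by simp, by simp,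
      by simpa using hw⟩, rfl⟩
    obtain ⟨P, hP, hPk⟩ := Nat.find_spec hex
    refine ⟨P, hP, fun l hl => ?_⟩
    have h1 := Nat.find_min' hex ⟨l, hl, rfl⟩
    have h2 := hbdd l hl
    have h3 := hbdd P hP
    omega
  have hPne : P ≠ [] := by
    intro h
    obtain ⟨w, hw⟩ := hW
    have := hmax [w] ⟨by simp, by simp, by simpa using hw⟩
    rw [h] at this
    simp at this
  set S : Finset V := univ.filter (fun s => ∃ l, Rch G P l ∧ l.head? = some s) with hS
  have memS : ∀ s, s ∈ S ↔ ∃ l, Rch G P l ∧ l.head? = some s := by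
    intro s
    rw [hS, mem_filter]
    simp
  have hadjP : ∀ l s v, Rch G P l → l.head? = some s → v ∈ W → G.Adj s v → v ∈ l := by
    intro l s v hl hs hv hsv
    by_contra hvl
    have hl' := (hl.isPL hP).1
    have h2 : IsPL G W (v :: l) := by
      refine ⟨List.nodup_cons.mpr ⟨hvl, hl'.1⟩, ?_, ?_⟩
      · rw [List.isChain_cons]
        refine ⟨?_, hl'.2.1⟩
        intro y hy
        rw [hs] at hy
        simp at hy
        rw [← hy]
        exact hsv.symm
      · intro u hu
        rcases List.mem_cons.mp hu with h | h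
        · exact h ▸ hv
        · exact hl'.2.2 u h
    have h3 := hmax _ h2
    have h4 := (hl.isPL hP).2.length_eq
    simp only [List.length_cons] at h3
    omega
  refine ⟨P, hP, S, ?_, ?_, ?_, ?_⟩
  · refine ⟨P.head hPne, (memS _).mpr ⟨P, Rch.base, List.head?_eq_some_head hPne⟩⟩
  · intro s hs
    obtain ⟨l, hl, hls⟩ := (memS s).mp hs
    exact (hl.isPL hP).2.mem_iff.mp (List.mem_of_head? hls)
  · intro s hs v hv hsv
    obtain ⟨l, hl, hls⟩ := (memS s).mp hs
    exact (hl.isPL hP).2.mem_iff.mp (hadjP l s v hl hls hv hsv)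
  · intro N hN
    -- neighbours along the path
    set Q : V → V → Prop := fun a b => P.idxOf b = P.idxOf a + 1 with hQ
    have hchain : P.IsChain Q := by
      rw [List.isChain_iff_getElem]
      intro i hi
      simp only [hQ]
      rw [hP.1.idxOf_getElem, hP.1.idxOf_getElem]
    have hinj : ∀ a b, a ∈ P → b ∈ P → P.idxOf a = P.idxOf b → a = b := by
      intro a b ha hb h
      exact (List.idxOf_inj ha).mp h
    have key : ∀ y, y ∈ N → ∃ z ∈ S, Q z y ∨ Q y z := by
      intro y hy
      obtain ⟨hyW, hyS, s, hs, hsy⟩ := hN y hy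
      by_contra hcon
      push Not at hcon
      set R : V → V → Prop := fun a b => (a = y → Q y b ∨ Q b y) ∧ (b = y → Q y a ∨ Q a y) with hR
      have hRsymm : ∀ a b, R a b → R b a := fun a b h => ⟨h.2, h.1⟩
      have hinv : ∀ l, Rch G P l → l.IsChain R := by
        intro l hl
        induction hl with
        | base =>
          refine hchain.imp fun a b hab => ⟨?_, ?_⟩
          · intro h; rw [← h]; exact Or.inl hab
          · intro h; rw [← h]; exact Or.inr hab
        | step x l0 w l2 hl hxw ih =>
          refine rot_chain hRsymm ih ?_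
          have hxS : x ∈ S := (memS x).mpr ⟨_, hl, by simp⟩
          refine ⟨?_, ?_⟩
          · intro h
            exact absurd (h ▸ hxS) hyS
          · intro h
            exfalso
            have h1 := ih.rel_getLast_head_of_append (by simp) (by simp)
            have h2 := h1.2 (by simpa using h)
            have h3 : (x :: l0).getLast (by simp) ∈ S := by
              refine (memS _).mpr ⟨_, Rch.step x l0 w l2 hl hxw, ?_⟩
              rw [List.head?_append_of_ne_nil _ (by simp), List.head?_reverse,
                List.getLast?_eq_getLast_of_ne_nil (by simp)]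
            have h4 := hcon _ h3
            tauto
      obtain ⟨l, hl, hls⟩ := (memS s).mp hs
      have hyl := hadjP l s y hl hls hyW hsy
      have hsy' : s ≠ y := fun h => hyS (h ▸ hs)
      -- split the list at y
      obtain ⟨l1, l2, rfl⟩ := List.append_of_mem hyl
      cases l1 with
      | nil =>
        simp at hls
        exact hsy' hls.symm
      | cons x l0 =>
        have hxs : x = s := by simpa using hls
        subst hxs
        have hl' := Rch.step x l0 y l2 hl hsy
        have h3 : (x :: l0).getLast (by simp) ∈ S := by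
          refine (memS _).mpr ⟨_, hl', ?_⟩
          rw [List.head?_append_of_ne_nil _ (by simp), List.head?_reverse,
            List.getLast?_eq_getLast_of_ne_nil (by simp)]
        have h1 := (hinv _ hl).rel_getLast_head_of_append (by simp) (by simp)
        have h2 := h1.2 (by simp)
        have h4 := hcon _ h3
        tauto
    have hNP : ∀ y ∈ N, y ∈ P := by
      intro y hy
      obtain ⟨hyW, hyS, s, hs, hsy⟩ := hN y hy
      obtain ⟨l, hl, hls⟩ := (memS s).mp hs
      exact (hl.isPL hP).2.mem_iff.mp (hadjP l s y hl hls hyW hsy)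
    set N1 := N.filter (fun y => ∃ z ∈ S, Q z y) with hN1
    set N2 := N.filter (fun y => ∃ z ∈ S, Q y z) with hN2
    have hsub : N ⊆ N1 ∪ N2 := by
      intro y hy
      obtain ⟨z, hz, h | h⟩ := key y hy
      · exact mem_union_left _ (mem_filter.mpr ⟨hy, z, hz, h⟩)
      · exact mem_union_right _ (mem_filter.mpr ⟨hy, z, hz, h⟩)
    have c1 : N1.card ≤ S.card := by
      refine card_le_of_rel (fun s y => Q s y) (fun y hy => (mem_filter.mp hy).2) ?_
      intro s y y' hy hy' h h'
      simp only [hQ] at h h'
      exact hinj y y' (hNP y (mem_filter.mp hy).1) (hNP y' (mem_filter.mp hy').1) (by omega)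
    have c2 : N2.card ≤ S.card := by
      refine card_le_of_rel (fun s y => Q y s) (fun y hy => (mem_filter.mp hy).2) ?_
      intro s y y' hy hy' h h'
      simp only [hQ] at h h'
      exact hinj y y' (hNP y (mem_filter.mp hy).1) (hNP y' (mem_filter.mp hy').1) (by omega)
    calc N.card ≤ (N1 ∪ N2).card := card_le_card hsub
      _ ≤ N1.card + N2.card := card_union_le _ _
      _ ≤ 2 * S.card := by omega

/-- The separation lemma. -/
theorem separate (G : SimpleGraph V) (U : Finset V) (n : ℕ) (hn : n ≤ U.card)
    (hpos : 0 < n) (hno : ∀ l, IsPL G U l → l.length < n) :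
    ∃ S Z : Finset V, S ⊆ Z ∧ Z ⊆ U ∧ (n - 1) / 3 ≤ 4 * S.card ∧ Z.card ≤ n - 1 ∧
      ∀ s ∈ S, ∀ v ∈ U, v ∉ Z → ¬ G.Adj s v := by
  classical
  set m := (n - 1) / 3 with hm
  -- external neighbourhood
  set nb : Finset V → Finset V := fun X => U.filter (fun v => v ∉ X ∧ ∃ x ∈ X, G.Adj x v) with hnb
  set fam := U.powerset.filter (fun X => X.card ≤ m ∧ (nb X).card ≤ 2 * X.card) with hfam
  have hne : fam.Nonempty := ⟨∅, by simp [hfam, hnb]⟩
  obtain ⟨X, hX, hXmax⟩ := fam.exists_max_image (fun X => X.card) hne
  obtain ⟨hXU, hXm, hXn⟩ := mem_filter.mp hX |>.imp mem_powerset.mp id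
  by_cases hbig : m ≤ 4 * X.card
  · refine ⟨X, X ∪ nb X, subset_union_left, ?_, hbig, ?_, ?_⟩
    · exact union_subset hXU (filter_subset _ _)
    · calc (X ∪ nb X).card ≤ X.card + (nb X).card := card_union_le _ _
        _ ≤ n - 1 := by omega
    · intro s hs v hv hvZ hsv
      rw [mem_union, not_or] at hvZ
      exact hvZ.2 (mem_filter.mpr ⟨hv, hvZ.1, s, hs, hsv⟩)
  · push Not at hbig
    have hWne : (U \ X).Nonempty := by
      rw [← card_pos, card_sdiff_of_subset hXU]
      omega
    obtain ⟨P, hP, S, hSne, hSP, hSadj, hSN⟩ := posa G (U \ X) hWne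
    have hPU : IsPL G U P := ⟨hP.1, hP.2.1, fun v hv => (mem_sdiff.mp (hP.2.2 v hv)).1⟩
    have hSX : Disjoint X S := by
      rw [disjoint_left]
      intro v hvX hvS
      exact (mem_sdiff.mp (hP.2.2 v (hSP v hvS))).2 hvX
    have hSU : S ⊆ U := fun v hv => hPU.2.2 v (hSP v hv)
    -- maximality
    have hbigS : m < X.card + S.card := by
      by_contra hcon
      push Not at hcon
      have hcard : (X ∪ S).card = X.card + S.card := card_union_of_disjoint hSX
      have hnbu : (nb (X ∪ S)).card ≤ 2 * (X ∪ S).card := by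
        have hsub : nb (X ∪ S) ⊆ nb X ∪ (nb (X ∪ S) \ nb X) := by
          intro v hv
          by_cases h : v ∈ nb X
          · exact mem_union_left _ h
          · exact mem_union_right _ (mem_sdiff.mpr ⟨hv, h⟩)
        have h2 : (nb (X ∪ S) \ nb X).card ≤ 2 * S.card := by
          refine hSN _ ?_
          intro v hv
          obtain ⟨hv1, hv2⟩ := mem_sdiff.mp hv
          obtain ⟨hvU, hvXS, x, hx, hxv⟩ := mem_filter.mp hv1
          rw [mem_union, not_or] at hvXS
          refine ⟨mem_sdiff.mpr ⟨hvU, hvXS.1⟩, hvXS.2, ?_⟩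
          rcases mem_union.mp hx with h | h
          · exact absurd (mem_filter.mpr ⟨hvU, hvXS.1, x, h, hxv⟩) hv2
          · exact ⟨x, h, hxv⟩
        calc (nb (X ∪ S)).card ≤ (nb X ∪ (nb (X ∪ S) \ nb X)).card := card_le_card hsub
          _ ≤ (nb X).card + (nb (X ∪ S) \ nb X).card := card_union_le _ _
          _ ≤ 2 * (X ∪ S).card := by omega
      have hmem : X ∪ S ∈ fam := by
        refine mem_filter.mpr ⟨mem_powerset.mpr (union_subset hXU hSU), ?_, hnbu⟩
        omega
      have := hXmax _ hmem
      have hSpos := card_pos.mpr hSne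
      omega
    refine ⟨S \ nb X, P.toFinset, ?_, ?_, ?_, ?_, ?_⟩
    · intro v hv
      exact List.mem_toFinset.mpr (hSP v (mem_sdiff.mp hv).1)
    · intro v hv
      exact hPU.2.2 v (List.mem_toFinset.mp hv)
    · have h1 : S.card ≤ (S \ nb X).card + (nb X).card := by
        have := card_le_card_sdiff_add_card (s := S) (t := nb X)
        omega
      omega
    · have h1 := hno P hPU
      have h2 : P.toFinset.card ≤ P.length := List.toFinset_card_le P
      omega
    · intro s hs v hv hvZ hsv
      obtain ⟨hsS, hsn⟩ := mem_sdiff.mp hs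
      by_cases hvX : v ∈ X
      · apply hsn
        refine mem_filter.mpr ⟨hSU hsS, ?_, v, hvX, hsv.symm⟩
        intro h
        exact (disjoint_left.mp hSX h) hsS
      · exact hvZ (List.mem_toFinset.mpr (hSadj s hsS v (mem_sdiff.mpr ⟨hv, hvX⟩) hsv))

/-- Iterating the separation lemma. -/
theorem separate_iter (G : SimpleGraph V) (n : ℕ) (hpos : 0 < n)
    (hno : ∀ l, IsPL G univ l → l.length < n) (k : ℕ) (hk : 0 < k) (r : ℕ) :
    ∀ U : Finset V, r * (n - 1) + k ≤ U.card →
    ∃ W : ℕ → Finset V, (∀ i ≤ r, W i ⊆ U) ∧ (∀ i ≤ r, ∀ j ≤ r, i ≠ j → Disjoint (W i) (W j)) ∧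
      (∀ i ≤ r, ∀ j ≤ r, i ≠ j → ∀ a ∈ W i, ∀ b ∈ W j, ¬ G.Adj a b) ∧
      k ≤ (W 0).card ∧ ∀ i, 1 ≤ i → i ≤ r → (n - 1) / 3 ≤ 4 * (W i).card := by
  classical
  induction r with
  | zero =>
    intro U hU
    refine ⟨fun _ => U, fun i _ => subset_rfl, ?_, ?_, by simpa using hU, ?_⟩
    · intro i hi j hj hij
      omega
    · intro i hi j hj hij
      omega
    · intro i h1 h2
      omega
  | succ r ih =>
    intro U hU
    have hexp : (r + 1) * (n - 1) = r * (n - 1) + (n - 1) := by ring
    have hUn : n ≤ U.card := by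
      have : n - 1 + 1 = n := by omega
      nlinarith [Nat.zero_le (r * (n - 1))]
    obtain ⟨S, Z, hSZ, hZU, hS, hZ, hadj⟩ := separate G U n hUn hpos
      (fun l hl => hno l ⟨hl.1, hl.2.1, fun v _ => mem_univ v⟩)
    have hU' : r * (n - 1) + k ≤ (U \ Z).card := by
      rw [card_sdiff_of_subset hZU]
      omega
    obtain ⟨W, hW1, hW2, hW3, hW4, hW5⟩ := ih (U \ Z) hU'
    refine ⟨Function.update W (r + 1) S, ?_, ?_, ?_, ?_, ?_⟩
    · intro i hi
      by_cases h : i = r + 1
      · subst h
        rw [Function.update_self]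
        exact hSZ.trans hZU
      · rw [Function.update_of_ne h]
        exact (hW1 i (by omega)).trans sdiff_subset
    · intro i hi j hj hij
      by_cases h : i = r + 1
      · subst h
        have h' : j ≠ r + 1 := fun h'' => hij h''.symm
        rw [Function.update_self, Function.update_of_ne h', disjoint_left]
        intro a ha hb
        exact (mem_sdiff.mp (hW1 j (by omega) hb)).2 (hSZ ha)
      · by_cases h' : j = r + 1
        · subst h'
          rw [Function.update_self, Function.update_of_ne h, disjoint_left]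
          intro a ha hb
          exact (mem_sdiff.mp (hW1 i (by omega) ha)).2 (hSZ hb)
        · rw [Function.update_of_ne h, Function.update_of_ne h']
          exact hW2 i (by omega) j (by omega) hij
    · intro i hi j hj hij
      by_cases h : i = r + 1
      · subst h
        have h' : j ≠ r + 1 := fun h'' => hij h''.symm
        rw [Function.update_self, Function.update_of_ne h']
        intro a ha b hb
        have := mem_sdiff.mp (hW1 j (by omega) hb)
        exact hadj a ha b this.1 this.2
      · by_cases h' : j = r + 1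
        · subst h'
          rw [Function.update_self, Function.update_of_ne h]
          intro a ha b hb hab
          have := mem_sdiff.mp (hW1 i (by omega) ha)
          exact hadj b hb a this.1 this.2 hab.symm
        · rw [Function.update_of_ne h, Function.update_of_ne h']
          exact hW3 i (by omega) j (by omega) hij
    · rw [Function.update_of_ne (by omega)]
      exact hW4
    · intro i h1 h2
      by_cases h : i = r + 1
      · subst h
        rw [Function.update_self]
        exact hS
      · rw [Function.update_of_ne h]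
        exact hW5 i h1 (by omega)

end Pool.Agent.CPR
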