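import Pool.Agent.CPR.Posa
import Pool.Agent.CPR.Pairs

/-!
The deterministic parts of the two threshold statements.
-/

open Finset SimpleGraph

set_option linter.unusedSectionVars false

namespace Pool.Agent.CPR

variable {V : Type*} [Fintype V] [DecidableEq V]

lemma path_of_list {G : SimpleGraph V} {n : ℕ} {l : List V} (hl : l.Nodup)
    (hc : l.IsChain G.Adj) (hn : n ≤ l.length) : (pathGraph n).IsContained G := by
  have hlt : ∀ i : Fin n, (i : ℕ) < l.length := fun i => lt_of_lt_of_le i.2 hn
  rw [List.isChain_iff_getElem] at hc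
  refine ⟨⟨⟨fun i => l[(i : ℕ)]'(hlt i), ?_⟩, ?_⟩⟩
  · intro a b hab
    rw [pathGraph_adj] at hab
    rcases hab with h | h
    · have := hc (a : ℕ) (by have := hlt b; omega)
      simp only [h] at this
      exact this
    · have := hc (b : ℕ) (by have := hlt a; omega)
      simp only [h] at this
      exact this.symm
  · intro a b hab
    have h := (List.Nodup.getElem_inj_iff hl).mp hab
    exact Fin.ext h

/-- If `G` does not arrow, there are large pairwise disjoint sets without a transversal clique. -/
theorem upper_det (G : SimpleGraph V) (r n k : ℕ) (hn : 0 < n) (hk : 0 < k) (U : Finset V)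
    (hU : r * (n - 1) + k ≤ U.card)
    (h : ¬ Arrows G (⊤ : SimpleGraph (Fin (r + 1))) (pathGraph n)) :
    ∃ W : Fin (r + 1) → Finset V, (∀ i, W i ⊆ U) ∧ (∀ i j, i ≠ j → Disjoint (W i) (W j)) ∧
      k ≤ (W 0).card ∧ (∀ i, i ≠ 0 → (n - 1) / 3 ≤ 4 * (W i).card) ∧
      ∀ x ∈ Fintype.piFinset W, ¬ ∀ i j, i ≠ j → G.Adj (x i) (x j) := by
  unfold Arrows at h
  push Not at h
  obtain ⟨R, B, hRB, _, hR, hB⟩ := h
  have hno : ∀ l, IsPL B univ l → l.length < n := by
    intro l hl
    by_contra hcon
    push Not at hcon
    exact hB.false (path_of_list hl.1 hl.2.1 hcon).some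
  obtain ⟨W, hW1, hW2, hW3, hW4, hW5⟩ := separate_iter B n hn hno k hk r U hU
  refine ⟨fun i => W i, fun i => hW1 i (by omega), ?_, by simpa using hW4, ?_, ?_⟩
  · intro i j hij
    exact hW2 i (by omega) j (by omega) (fun h => hij (Fin.ext h))
  · intro i hi
    have : (i : ℕ) ≠ 0 := fun h => hi (Fin.ext (by simpa using h))
    exact hW5 i (by omega) (by omega)
  · intro x hx hadj
    rw [Fintype.mem_piFinset] at hx
    have hRadj : ∀ i j, i ≠ j → R.Adj (x i) (x j) := by
      intro i j hij
      have h1 := hadj i j hij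
      rw [← hRB, sup_adj] at h1
      rcases h1 with h1 | h1
      · exact h1
      · exact absurd h1 (hW3 i (by omega) j (by omega) (fun h => hij (Fin.ext h)) _ (hx i) _ (hx j))
    refine hR.false ⟨⟨x, ?_⟩, ?_⟩
    · intro a b hab
      rw [top_adj] at hab
      exact hRadj a b hab
    · intro a b hab
      by_contra hne
      have := hRadj a b hne
      change x a = x b at hab
      rw [hab] at this
      exact R.irrefl this

/-- A partition into parts of prescribed size, the first containing a given set. -/
lemma exists_partition (r m : ℕ) (hr : 2 ≤ r) (X D : Finset V) (hX : X.card ≤ m)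
    (hXD : Disjoint X D) (hD : D.card ≤ m) (hV : Fintype.card V = X.card + r * m) :
    ∃ f : V → Fin (r + 1), (∀ v, f v = 0 ↔ v ∈ X) ∧ (∀ v ∈ D, f v = 1) ∧
      ∀ i, (univ.filter (fun v => f v = i)).card ≤ m := by
  classical
  have hDX : D ⊆ Xᶜ := by
    intro v hv
    rw [mem_compl]
    intro h
    exact disjoint_left.mp hXD h hv
  have hXc : Xᶜ.card = r * m := by
    rw [card_compl, hV]
    omega
  obtain ⟨E, hDE, hEX, hE⟩ := exists_subsuperset_card_eq (n := m) hDX hD (by
    rw [hXc]; nlinarith)
  -- the rest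
  set Y := Xᶜ \ E with hY
  have hYc : Y.card = (r - 1) * m := by
    rw [hY, card_sdiff_of_subset hEX, hXc, hE]
    obtain ⟨s, rfl⟩ : ∃ s, r = s + 1 := ⟨r - 1, by omega⟩
    rw [add_mul, one_mul]
    simp
  let e : Y ≃ Fin ((r - 1) * m) := Y.equivFinOfCardEq hYc
  have hdiv : ∀ v (hv : v ∈ Y), (e ⟨v, hv⟩ : ℕ) / m < r - 1 := by
    intro v hv
    exact Nat.div_lt_of_lt_mul (lt_of_lt_of_eq (e ⟨v, hv⟩).2 (mul_comm _ _))
  let f : V → Fin (r + 1) := fun v =>
    if v ∈ X then 0 else if v ∈ E then 1 else
      if hv : v ∈ Y then ⟨2 + (e ⟨v, hv⟩ : ℕ) / m, by have := hdiv v hv; omega⟩ else 1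
  have hval1 : ((1 : Fin (r + 1)) : ℕ) = 1 := by
    rw [Fin.val_one' (r + 1), Nat.mod_eq_of_lt (by omega)]
  have hval0 : ((0 : Fin (r + 1)) : ℕ) = 0 := rfl
  have h01 : (1 : Fin (r + 1)) ≠ 0 := by
    intro h
    have := congrArg Fin.val h
    rw [hval1, hval0] at this
    omega
  have hfX : ∀ v ∈ X, f v = 0 := fun v hv => by simp only [f, if_pos hv]
  have hEnX : ∀ v ∈ E, v ∉ X := fun v hv => mem_compl.mp (hEX hv)
  have hfE : ∀ v ∈ E, f v = 1 := fun v hv => by simp only [f, if_neg (hEnX v hv), if_pos hv]
  have hfY : ∀ v (hv : v ∈ Y), (f v : ℕ) = 2 + (e ⟨v, hv⟩ : ℕ) / m := by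
    intro v hv
    have h1 : v ∉ X := mem_compl.mp (mem_sdiff.mp hv).1
    have h2 : v ∉ E := (mem_sdiff.mp hv).2
    simp only [f, if_neg h1, if_neg h2, dif_pos hv]
  have hcases : ∀ v, v ∈ X ∨ v ∈ E ∨ v ∈ Y := by
    intro v
    by_cases h1 : v ∈ X
    · exact Or.inl h1
    · by_cases h2 : v ∈ E
      · exact Or.inr (Or.inl h2)
      · exact Or.inr (Or.inr (mem_sdiff.mpr ⟨mem_compl.mpr h1, h2⟩))
  have hiff0 : ∀ v, f v = 0 ↔ v ∈ X := by
    intro v
    refine ⟨fun h => ?_, hfX v⟩
    rcases hcases v with h1 | h1 | h1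
    · exact h1
    · rw [hfE v h1] at h
      exact absurd h h01
    · have h2 := hfY v h1
      have h3 : ((f v : Fin (r + 1)) : ℕ) = 0 := by rw [h, hval0]
      rw [h3] at h2
      generalize (e ⟨v, h1⟩ : ℕ) / m = q at h2
      omega
  refine ⟨f, hiff0, fun v hv => hfE v (hDE hv), ?_⟩
  intro i
  by_cases hi0 : i = 0
  · subst hi0
    have : univ.filter (fun v => f v = 0) = X := by
      ext v
      simp [hiff0 v]
    rw [this]
    exact hX
  · by_cases hi1 : i = 1
    · subst hi1
      have : univ.filter (fun v => f v = 1) ⊆ E := by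
        intro v hv
        rw [mem_filter] at hv
        rcases hcases v with h1 | h1 | h1
        · rw [hfX v h1] at hv
          exact absurd hv.2.symm h01
        · exact h1
        · have h2 := hfY v h1
          have h3 : ((f v : Fin (r + 1)) : ℕ) = 1 := by rw [hv.2, hval1]
          rw [h3] at h2
          generalize (e ⟨v, h1⟩ : ℕ) / m = q at h2
          omega
      exact (card_le_card this).trans hE.le
    · -- fibres of division
      rcases Nat.eq_zero_or_pos m with hm | hm
      · have hY0 : Y = ∅ := by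
          rw [← card_eq_zero, hYc, hm, mul_zero]
        have hX0 : X = ∅ := by
          rw [← card_eq_zero]; omega
        have hE0 : E = ∅ := by
          rw [← card_eq_zero]; omega
        have : univ.filter (fun v => f v = i) = ∅ := by
          rw [filter_eq_empty_iff]
          intro v _
          rcases hcases v with h1 | h1 | h1
          · rw [hX0] at h1; exact absurd h1 (notMem_empty v)
          · rw [hE0] at h1; exact absurd h1 (notMem_empty v)
          · rw [hY0] at h1; exact absurd h1 (notMem_empty v)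
        rw [this]
        simp
      · have hmem : ∀ v ∈ univ.filter (fun v => f v = i), v ∈ Y := by
          intro v hv
          rw [mem_filter] at hv
          rcases hcases v with h1 | h1 | h1
          · rw [hfX v h1] at hv
            exact absurd hv.2.symm hi0
          · rw [hfE v h1] at hv
            exact absurd hv.2.symm hi1
          · exact h1
        set g : V → ℕ := fun v => if hv : v ∈ Y then (e ⟨v, hv⟩ : ℕ) else 0 with hg
        have hinj : Set.InjOn g (univ.filter (fun v => f v = i)) := by
          intro v hv w hw hvw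
          have hv' := hmem v hv
          have hw' := hmem w hw
          simp only [hg, dif_pos hv', dif_pos hw'] at hvw
          have := e.injective (Fin.ext hvw)
          simpa using this
        have himg : ∀ v ∈ univ.filter (fun v => f v = i),
            g v ∈ Finset.Ico (((i : ℕ) - 2) * m) (((i : ℕ) - 2) * m + m) := by
          intro v hv
          have hv' := hmem v hv
          have h1 := hfY v hv'
          rw [(mem_filter.mp hv).2] at h1
          simp only [hg, dif_pos hv', Finset.mem_Ico]
          have h2 : (i : ℕ) - 2 = (e ⟨v, hv'⟩ : ℕ) / m := by omega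
          rw [h2]
          constructor
          · exact Nat.div_mul_le_self _ _
          · have h3 := Nat.div_add_mod (e ⟨v, hv'⟩ : ℕ) m
            have h4 := Nat.mod_lt (e ⟨v, hv'⟩ : ℕ) hm
            rw [mul_comm] at h3
            omega
        have := Finset.card_le_card_of_injOn g himg hinj
        rwa [Nat.card_Ico, Nat.add_sub_cancel_left] at this

/-- If there are few cliques with exactly one vertex in `X`, then `G` does not arrow. -/
theorem lower_det (G : SimpleGraph V) (r n : ℕ) (hr : 2 ≤ r) (hn : 0 < n) (X : Finset V)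
    (hX : X.card ≤ n - 1) (hV : Fintype.card V = X.card + r * (n - 1))
    (I : Finset (Fin (r + 1) → V))
    (hI : ∀ x : Fin (r + 1) → V, x 0 ∈ X → (∀ i, i ≠ 0 → x i ∉ X) →
      (∀ i j, i ≠ j → G.Adj (x i) (x j)) → x ∈ I)
    (hI2 : ∀ x ∈ I, ∀ i, i ≠ 0 → x i ∉ X)
    (hIc : 2 * I.card ≤ n - 1) :
    ¬ Arrows G (⊤ : SimpleGraph (Fin (r + 1))) (pathGraph n) := by
  classical
  have hval1 : ((1 : Fin (r + 1)) : ℕ) = 1 := by
    rw [Fin.val_one' (r + 1), Nat.mod_eq_of_lt (by omega)]
  set two : Fin (r + 1) := ⟨2, by omega⟩ with htwo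
  have h10 : (1 : Fin (r + 1)) ≠ 0 := by
    intro h
    have := congrArg Fin.val h
    rw [hval1, Fin.val_zero] at this
    omega
  have h20 : two ≠ 0 := by
    intro h
    have := congrArg Fin.val h
    rw [Fin.val_zero] at this
    simp [htwo] at this
  have h21 : two ≠ 1 := by
    intro h
    have := congrArg Fin.val h
    rw [hval1] at this
    simp [htwo] at this
  set D : Finset V := I.image (fun x => x 1) ∪ I.image (fun x => x two) with hD
  have hDc : D.card ≤ n - 1 := by
    calc D.card ≤ (I.image (fun x => x 1)).card + (I.image (fun x => x two)).card :=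
          card_union_le _ _
      _ ≤ I.card + I.card := add_le_add card_image_le card_image_le
      _ ≤ n - 1 := by omega
  have hXD : Disjoint X D := by
    rw [Finset.disjoint_left]
    intro v hv hvD
    rcases mem_union.mp hvD with h | h
    · obtain ⟨x, hx, rfl⟩ := mem_image.mp h
      exact hI2 x hx 1 h10 hv
    · obtain ⟨x, hx, rfl⟩ := mem_image.mp h
      exact hI2 x hx two h20 hv
  obtain ⟨f, hf0, hfD, hfc⟩ := exists_partition r (n - 1) hr X D hX hXD hDc hV
  -- the colouring
  set R : SimpleGraph V :=
    { Adj := fun a b => G.Adj a b ∧ f a ≠ f b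
      symm := ⟨fun a b h => ⟨h.1.symm, h.2.symm⟩⟩
      loopless := ⟨fun a h => h.2 rfl⟩ } with hR
  set B : SimpleGraph V :=
    { Adj := fun a b => G.Adj a b ∧ f a = f b
      symm := ⟨fun a b h => ⟨h.1.symm, h.2.symm⟩⟩
      loopless := ⟨fun a h => G.irrefl h.1⟩ } with hB
  intro harr
  have hsup : R ⊔ B = G := by
    ext a b
    simp only [sup_adj, hR, hB]
    constructor
    · rintro (h | h)
      · exact h.1
      · exact h.1
    · intro h
      by_cases hab : f a = f b
      · exact Or.inr ⟨h, hab⟩
      · exact Or.inl ⟨h, hab⟩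
  have hdis : Disjoint R B := by
    rw [SimpleGraph.disjoint_left]
    intro a b h1 h2
    exact h1.2 h2.2
  rcases harr R B hsup hdis with ⟨⟨c⟩⟩ | ⟨⟨c⟩⟩
  · -- red clique
    have hadj : ∀ i j, i ≠ j → R.Adj (c i) (c j) := fun i j hij =>
      c.toHom.map_adj ((top_adj i j).mpr hij)
    have hinj : Function.Injective (fun i => f (c i)) := by
      intro i j hij
      by_contra hne
      exact (hadj i j hne).2 hij
    let σ : Equiv.Perm (Fin (r + 1)) :=
      Equiv.ofBijective (fun i => f (c i)) (Finite.injective_iff_bijective.mp hinj)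
    have hσ : ∀ i, f (c (σ.symm i)) = i := fun i => σ.apply_symm_apply i
    set y : Fin (r + 1) → V := fun i => c (σ.symm i) with hy
    have hyI : y ∈ I := by
      refine hI y ?_ ?_ ?_
      · exact (hf0 _).mp (hσ 0)
      · intro i hi hX'
        have := (hf0 _).mpr hX'
        rw [hσ i] at this
        exact hi this
      · intro i j hij
        exact (hadj _ _ (fun h => hij (σ.symm.injective h))).1
    have h2 : f (y two) = 1 := hfD _ (mem_union_right _ (mem_image.mpr ⟨y, hyI, rfl⟩))
    rw [hσ two] at h2
    exact h21 h2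
  · -- blue path
    have hstep : ∀ i : ℕ, ∀ hi : i < n, f (c ⟨i, hi⟩) = f (c ⟨0, hn⟩) := by
      intro i
      induction i with
      | zero => intro hi; rfl
      | succ i ih =>
        intro hi
        have h1 : (pathGraph n).Adj (⟨i, by omega⟩ : Fin n) ⟨i + 1, hi⟩ := by
          rw [pathGraph_adj]
          exact Or.inl rfl
        have h2 : B.Adj (c ⟨i, by omega⟩) (c ⟨i + 1, hi⟩) := c.toHom.map_adj h1
        rw [← h2.2]
        exact ih (by omega)
    have hsub : univ.image c ⊆ univ.filter (fun v => f v = f (c ⟨0, hn⟩)) := by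
      intro v hv
      obtain ⟨i, _, rfl⟩ := mem_image.mp hv
      rw [mem_filter]
      exact ⟨mem_univ _, hstep i.1 i.2⟩
    have h1 := card_le_card hsub
    rw [card_image_of_injective univ (f := (c : Fin n → V)) c.injective', card_univ,
      Fintype.card_fin] at h1
    have h2 := hfc (f (c ⟨0, hn⟩))
    omega

end Pool.Agent.CPR
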