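import Pool.Agent.CPR.Struct
import Pool.Agent.CPR.Arith

/-!
The upper bound for the probability that `G(V,p)` does not arrow.
-/

open Finset SimpleGraph

set_option linter.unusedSectionVars false

namespace Pool.Agent.CPR

variable {V : Type*} [Fintype V] [DecidableEq V]

lemma kap_pos (k : ℕ) (hk : 1 ≤ k) : 0 < kap k := by
  unfold kap
  have : (1 : ℝ) ≤ k := by exact_mod_cast hk
  positivity

/-- Lower bound for the expected numbers of partial cliques. -/
lemma EJ_lower {r n k : ℕ} {p C : ℝ} (hr : 1 ≤ r) (hn6 : 6 ≤ n) (hp0 : 0 < p) (hp1 : p ≤ 1)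
    (hC : 1 ≤ C) (hCp : C ^ 2 * p ≤ 1) (hn1 : 1 ≤ (n : ℝ) ^ 2 * p ^ (r + 1))
    (hn2 : (n : ℝ) ^ 2 * p ^ (r + 2) ≤ 1) (hk : C * t0 r n p ≤ k)
    (W : Fin (r + 1) → Finset V) (hW0 : k ≤ (W 0).card)
    (hW : ∀ i, i ≠ 0 → (n - 1) / 3 ≤ 4 * (W i).card)
    (J : Finset (Fin (r + 1))) (hJ : 2 ≤ J.card) :
    C * (n : ℝ) / 24 ^ r ≤ EJ W p J := by
  have hn0 : (0 : ℝ) < n := by exact_mod_cast (by omega : 0 < n)
  have hJr : J.card ≤ r + 1 := by
    have := card_le_univ J
    rwa [Fintype.card_fin] at this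
  have hWr : ∀ i, i ≠ 0 → (n : ℝ) / 24 ≤ (W i).card := by
    intro i hi
    have h1 := hW i hi
    have h2 : n ≤ 24 * (W i).card := by omega
    have h3 : (n : ℝ) ≤ 24 * (W i).card := by exact_mod_cast h2
    linarith
  set j := J.card with hj
  by_cases h0 : (0 : Fin (r + 1)) ∈ J
  · -- J contains 0
    have hprod : ((n : ℝ) / 24) ^ (j - 1) * k ≤ ∏ i ∈ J, ((W i).card : ℝ) := by
      rw [← mul_prod_erase J _ h0, mul_comm]
      have h1 : (k : ℝ) ≤ (W 0).card := by exact_mod_cast hW0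
      refine mul_le_mul h1 ?_ (by positivity) (by positivity)
      have : j - 1 = (J.erase 0).card := by rw [card_erase_of_mem h0]
      rw [this, ← prod_const]
      exact prod_le_prod (fun _ _ => by positivity) fun i hi => hWr i (mem_erase.mp hi).1
    have h2 := a2 (n := n) hp0 hp1 hn2 hJ hJr
    have h3 := t0_mul (r := r) hp0 (by omega : 0 < n) (by omega)
    -- n ≤ t0 * n^(j-1) * p^(choose j 2)
    have hch : j.choose 2 ≤ (r + 1).choose 2 := Nat.choose_le_choose 2 hJr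
    have h4 : (n : ℝ) ≤ t0 r n p * ((n : ℝ) ^ (j - 1) * p ^ (j.choose 2)) := by
      have e1 : (n : ℝ) ^ r * p ^ ((r + 1).choose 2)
          = ((n : ℝ) ^ (j - 1) * p ^ (j.choose 2))
            * ((n : ℝ) ^ (r + 1 - j) * p ^ ((r + 1).choose 2 - j.choose 2)) := by
        have e2 : (n : ℝ) ^ r = (n : ℝ) ^ (j - 1) * (n : ℝ) ^ (r + 1 - j) := by
          rw [← pow_add]; congr 1; omega
        have e3 : p ^ ((r + 1).choose 2)
            = p ^ (j.choose 2) * p ^ ((r + 1).choose 2 - j.choose 2) := by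
          rw [← pow_add]; congr 1; omega
        rw [e2, e3]; ring
      calc (n : ℝ) = t0 r n p * ((n : ℝ) ^ r * p ^ ((r + 1).choose 2)) := h3.symm
        _ = (t0 r n p * ((n : ℝ) ^ (j - 1) * p ^ (j.choose 2)))
            * ((n : ℝ) ^ (r + 1 - j) * p ^ ((r + 1).choose 2 - j.choose 2)) := by
          rw [e1]; ring
        _ ≤ (t0 r n p * ((n : ℝ) ^ (j - 1) * p ^ (j.choose 2))) * 1 := by
          apply mul_le_mul_of_nonneg_left h2
          have := t0_pos (r := r) hp0 (by omega : 0 < n)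
          positivity
        _ = _ := mul_one _
    have h24 : (24 : ℝ) ^ (j - 1) ≤ 24 ^ r := pow_le_pow_right₀ (by norm_num) (by omega)
    unfold EJ
    calc C * (n : ℝ) / 24 ^ r ≤ C * (n : ℝ) / 24 ^ (j - 1) :=
          div_le_div_of_nonneg_left (by positivity) (by positivity) h24
      _ ≤ C * (t0 r n p * ((n : ℝ) ^ (j - 1) * p ^ (j.choose 2))) / 24 ^ (j - 1) := by
          gcongr
      _ = (((n : ℝ) / 24) ^ (j - 1) * (C * t0 r n p)) * p ^ (j.choose 2) := by
          rw [div_pow]; ring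
      _ ≤ (((n : ℝ) / 24) ^ (j - 1) * k) * p ^ (j.choose 2) := by
          gcongr
      _ ≤ _ := mul_le_mul_of_nonneg_right hprod (by positivity)
  · -- J does not contain 0
    have hjr : j ≤ r := by
      have hsub : J ⊆ univ.erase 0 := by
        intro i hi
        rw [mem_erase]
        exact ⟨fun h => h0 (h ▸ hi), mem_univ _⟩
      have := card_le_card hsub
      rw [card_erase_of_mem (mem_univ _), card_univ, Fintype.card_fin] at this
      omega
    have hprod : ((n : ℝ) / 24) ^ j ≤ ∏ i ∈ J, ((W i).card : ℝ) := by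
      rw [hj, ← prod_const]
      exact prod_le_prod (fun _ _ => by positivity) fun i hi => hWr i (fun h => h0 (h ▸ hi))
    have h2 := a1 (n := n) hp0 hp1 hC hCp hn1 hJ hjr
    have h24 : (24 : ℝ) ^ j ≤ 24 ^ r := pow_le_pow_right₀ (by norm_num) hjr
    unfold EJ
    calc C * (n : ℝ) / 24 ^ r ≤ C * (n : ℝ) / 24 ^ j :=
          div_le_div_of_nonneg_left (by positivity) (by positivity) h24
      _ ≤ ((n : ℝ) ^ (j - 1) * p ^ (j.choose 2)) * (n : ℝ) / 24 ^ j := by
          gcongr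
      _ = ((n : ℝ) / 24) ^ j * p ^ (j.choose 2) := by
          have : (n : ℝ) ^ j = (n : ℝ) ^ (j - 1) * n := by
            rw [← pow_succ]; congr 1; omega
          rw [div_pow, this]; ring
      _ ≤ _ := mul_le_mul_of_nonneg_right hprod (by positivity)

/-- The constant `C`. -/
noncomputable def bigC (r : ℕ) : ℝ := 24 ^ r * (4 * kap (r + 1)) * ((r + 1) ^ 2 + 1)

lemma one_le_bigC (r : ℕ) : 1 ≤ bigC r := by
  unfold bigC
  have h1 : (1 : ℝ) ≤ 24 ^ r := one_le_pow₀ (by norm_num)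
  have h2 : (1 : ℝ) ≤ 4 * kap (r + 1) := by
    have : (1 : ℝ) ≤ kap (r + 1) := by
      unfold kap
      apply one_le_pow₀
      push_cast
      have : (0 : ℝ) ≤ r := by positivity
      linarith
    linarith
  have h3 : (1 : ℝ) ≤ ((r : ℝ) + 1) ^ 2 + 1 := by nlinarith [sq_nonneg ((r : ℝ) + 1)]
  have h4 : (1 : ℝ) ≤ 24 ^ r * (4 * kap (r + 1)) := by nlinarith
  nlinarith

theorem upper_prob {r n : ℕ} (p : unitInterval) (hr : 1 ≤ r) (hn6 : 6 ≤ n)
    (hp0 : 0 < (p : ℝ)) (hCp : bigC r ^ 2 * p ≤ 1) (hn1 : 1 ≤ (n : ℝ) ^ 2 * (p : ℝ) ^ (r + 1))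
    (hn2 : (n : ℝ) ^ 2 * (p : ℝ) ^ (r + 2) ≤ 1) (k : ℕ) (hk0 : 0 < k)
    (hk : bigC r * t0 r n p ≤ k) (hkn : k ≤ n) (hV : r * (n - 1) + k ≤ Fintype.card V) :
    (binomialRandom V p).real
      {G | ¬ Arrows G (⊤ : SimpleGraph (Fin (r + 1))) (pathGraph n)} ≤ Real.exp (- n) := by
  classical
  have hp1 : (p : ℝ) ≤ 1 := p.2.2
  obtain ⟨U, _, hU⟩ := exists_subset_card_eq (s := (univ : Finset V)) (n := r * (n - 1) + k)
    (by rwa [card_univ])
  rw [prob_eq]
  set Ξ : Finset (Fin (r + 1) → Finset V) :=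
    (Fintype.piFinset (fun _ : Fin (r + 1) => U.powerset)).filter (fun W =>
      (∀ i j, i ≠ j → Disjoint (W i) (W j)) ∧ k ≤ (W 0).card ∧
        (∀ i, i ≠ 0 → (n - 1) / 3 ≤ 4 * (W i).card)) with hΞ
  have hcover : ∀ A : Finset (Sym2 V),
      (if fromEdgeSet (A : Set (Sym2 V)) ∈
          {G | ¬ Arrows G (⊤ : SimpleGraph (Fin (r + 1))) (pathGraph n)} then (1 : ℝ) else 0)
        ≤ ∑ W ∈ Ξ, avoid tx (Fintype.piFinset W) A := by
    intro A
    have hnn : ∀ W : Fin (r + 1) → Finset V, 0 ≤ avoid tx (Fintype.piFinset W) A := by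
      intro W
      unfold avoid
      split_ifs <;> norm_num
    split_ifs with h
    · obtain ⟨W, hW1, hW2, hW3, hW4, hW5⟩ :=
        upper_det _ r n k (by omega) hk0 U hU.ge h
      have hmem : W ∈ Ξ := by
        rw [hΞ, mem_filter, Fintype.mem_piFinset]
        exact ⟨fun i => mem_powerset.mpr (hW1 i), hW2, hW3, hW4⟩
      have h1 : avoid tx (Fintype.piFinset W) A = 1 := by
        unfold avoid
        rw [if_pos]
        intro x hx hsub
        apply hW5 x hx
        intro i j hij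
        have hxij : x i ≠ x j := by
          intro he
          rw [Fintype.mem_piFinset] at hx
          exact Finset.disjoint_left.mp (hW2 i j hij) (hx i) (he ▸ hx j)
        rw [fromEdgeSet_adj]
        refine ⟨?_, hxij⟩
        apply hsub
        unfold tx
        rw [mem_cl]
        exact ⟨mem_image_of_mem _ (mem_univ _), mem_image_of_mem _ (mem_univ _), hxij⟩
      calc (1 : ℝ) = avoid tx (Fintype.piFinset W) A := h1.symm
        _ ≤ _ := single_le_sum (f := fun W => avoid tx (Fintype.piFinset W) A)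
            (fun W _ => hnn W) hmem
    · exact sum_nonneg fun W _ => hnn W
  have h0 : ∀ e : Sym2 V, 0 ≤ pr V (p : ℝ) e := fun e => pr_nonneg hp0.le e
  have h1 : ∀ e : Sym2 V, pr V (p : ℝ) e ≤ 1 := fun e => pr_le_one hp1 e
  refine le_trans (ex_mono h0 h1 hcover) ?_
  rw [ex_sum]
  set L := bigC r * (n : ℝ) / 24 ^ r with hL
  have hn0 : (0 : ℝ) < n := by exact_mod_cast (by omega : 0 < n)
  have hCpos : 0 < bigC r := lt_of_lt_of_le one_pos (one_le_bigC r)
  have hLpos : 0 < L := by positivity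
  have hterm : ∀ W ∈ Ξ, ex (pr V (p : ℝ)) (avoid tx (Fintype.piFinset W))
      ≤ Real.exp (- (((r : ℝ) + 1) ^ 2 + 1) * n) := by
    intro W hW
    rw [hΞ, mem_filter] at hW
    obtain ⟨_, hW2, hW3, hW4⟩ := hW
    have h2 := no_transversal (by omega) W hp0 hp1 hLpos
      (EJ_lower hr hn6 hp0 hp1 (one_le_bigC r) hCp hn1 hn2 hk W hW3 hW4) hW2
    refine h2.trans (le_of_eq ?_)
    congr 1
    have hκ := kap_pos (r + 1) (by omega)
    rw [hL, bigC]
    field_simp
  have hcard : (Ξ.card : ℝ) ≤ Real.exp (((r : ℝ) + 1) ^ 2 * n) := by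
    have h2 : Ξ.card ≤ (2 ^ U.card) ^ (r + 1) := by
      calc Ξ.card ≤ (Fintype.piFinset (fun _ : Fin (r + 1) => U.powerset)).card :=
            card_filter_le _ _
        _ = (2 ^ U.card) ^ (r + 1) := by
            rw [Fintype.card_piFinset]
            simp
    have h3 : U.card ≤ (r + 1) * n := by
      rw [hU]
      have : r * (n - 1) ≤ r * n := Nat.mul_le_mul_left _ (by omega)
      nlinarith
    have h4 : (2 ^ U.card) ^ (r + 1) ≤ 2 ^ ((r + 1) * n * (r + 1)) := by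
      rw [← pow_mul]
      exact Nat.pow_le_pow_right (by norm_num) (Nat.mul_le_mul_right _ h3)
    have h5 : (Ξ.card : ℝ) ≤ 2 ^ ((r + 1) * n * (r + 1)) := by exact_mod_cast h2.trans h4
    have h6 : (2 : ℝ) ≤ Real.exp 1 := by
      have := Real.add_one_le_exp (1 : ℝ)
      linarith
    calc (Ξ.card : ℝ) ≤ 2 ^ ((r + 1) * n * (r + 1)) := h5
      _ ≤ (Real.exp 1) ^ ((r + 1) * n * (r + 1)) := pow_le_pow_left₀ (by norm_num) h6 _
      _ = Real.exp (((r : ℝ) + 1) ^ 2 * n) := by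
        rw [← Real.exp_nat_mul]
        congr 1
        push_cast
        ring
  calc ∑ W ∈ Ξ, ex (pr V (p : ℝ)) (avoid tx (Fintype.piFinset W))
      ≤ ∑ _W ∈ Ξ, Real.exp (- (((r : ℝ) + 1) ^ 2 + 1) * n) := sum_le_sum hterm
    _ = (Ξ.card : ℝ) * Real.exp (- (((r : ℝ) + 1) ^ 2 + 1) * n) := by
        rw [sum_const, nsmul_eq_mul]
    _ ≤ Real.exp (((r : ℝ) + 1) ^ 2 * n) * Real.exp (- (((r : ℝ) + 1) ^ 2 + 1) * n) :=
        mul_le_mul_of_nonneg_right hcard (Real.exp_pos _).le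
    _ = Real.exp (- n) := by
        rw [← Real.exp_add]
        congr 1
        ring

end Pool.Agent.CPR
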